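import Mathlib

/-!
# Symmetric algebraic circuits for partitions into three sets (definitions)
-/

namespace Pool.Agent.SAC

open Equiv

/-- An algebraic circuit over the field `L` with gates `Γ`, in the variables `x_(k,A)`, where
`k = 0, 1, 2` and `A` is a subset of `V`.  Gate `g` computes
`const g + ∑ var g (k,A) * x_(k,A) + ∑ lin g h * (gate h) + (gate (left g)) * (gate (right g))`;
the last summand is present if and only if `isProd g = true`; only these products are counted.
The function `rank` makes the circuit acyclic. -/
structure Circuit (V L Γ : Type) [Field L] where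
  const : Γ → L
  var : Γ → Fin 3 × Finset V → L
  lin : Γ → Γ → L
  isProd : Γ → Bool
  left : Γ → Γ
  right : Γ → Γ
  rank : Γ → ℕ
  lin_lt : ∀ {g h : Γ}, lin g h ≠ 0 → rank h < rank g
  left_lt : ∀ {g : Γ}, isProd g = true → rank (left g) < rank g
  right_lt : ∀ {g : Γ}, isProd g = true → rank (right g) < rank g
  out : Γ

section
variable {V L Γ : Type} [Field L] [Fintype V] [Fintype Γ]

open Classical in
/-- The polynomial computed by a gate. -/
noncomputable def Circuit.val (C : Circuit V L Γ) (g : Γ) : MvPolynomial (Fin 3 × Finset V) L :=
  MvPolynomial.C (C.const g) +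
    ∑ p : Fin 3 × Finset V, MvPolynomial.C (C.var g p) * MvPolynomial.X p +
    (∑ h : Γ, if _hw : C.lin g h ≠ 0 then MvPolynomial.C (C.lin g h) * C.val h else 0) +
    (if _hp : C.isProd g = true then C.val (C.left g) * C.val (C.right g) else 0)
termination_by C.rank g
decreasing_by
  · exact C.lin_lt _hw
  · exact C.left_lt _hp
  · exact C.right_lt _hp

/-- The number of products. -/
noncomputable def Circuit.products (C : Circuit V L Γ) : ℕ := Nat.card {g : Γ // C.isProd g = true}

/-- The coefficient of `x_(0,A) x_(1,B) x_(2,D)` in the polynomial computed by the circuit. -/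
noncomputable def Circuit.coeff (C : Circuit V L Γ) (A B D : Finset V) : L :=
  (C.val C.out).coeff (Finsupp.single (0, A) 1 + Finsupp.single (1, B) 1 + Finsupp.single (2, D) 1)

/-- The permutation `τ` of the gates is an automorphism of the circuit inducing the permutation
`π` of `V`.  The two factors of a product may be exchanged. -/
structure Circuit.IsAut (C : Circuit V L Γ) (π : Perm V) (τ : Perm Γ) : Prop where
  const_eq : ∀ g, C.const (τ g) = C.const g
  var_eq : ∀ g k A, C.var (τ g) (k, A.map π.toEmbedding) = C.var g (k, A)
  lin_eq : ∀ g h, C.lin (τ g) (τ h) = C.lin g h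
  isProd_eq : ∀ g, C.isProd (τ g) = C.isProd g
  prod_eq : ∀ g, C.isProd g = true →
    (C.left (τ g) = τ (C.left g) ∧ C.right (τ g) = τ (C.right g)) ∨
    (C.left (τ g) = τ (C.right g) ∧ C.right (τ g) = τ (C.left g))
  out_eq : τ C.out = C.out

end

/-- `(A, B, D)` is a partition of `V` into three sets (some may be empty). -/
def IsPartition {V : Type} [Fintype V] [DecidableEq V] (A B D : Finset V) : Prop :=
  Disjoint A B ∧ Disjoint A D ∧ Disjoint B D ∧ A ∪ B ∪ D = Finset.univ

/-- The set `A` contains at most half of the points of each of the `m` blocks of `b` points. -/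
def HalfAtMost {m b : ℕ} (A : Finset (Fin m × Fin b)) : Prop :=
  ∀ j : Fin m, 2 * (A.filter (fun p => p.1 = j)).card ≤ b

/-- `T` has a coefficient at a partition whose three classes contain at most half of each block,
and the valuation of this coefficient is larger than the valuation of all coefficients at triples
which are no partitions.  For the trivial valuation this means that `T` vanishes at all triples
which are no partitions, and does not vanish at some partition as above. -/
def Detects {m b : ℕ} {L : Type} [Field L] {Γ₀ : Type} [LinearOrderedCommGroupWithZero Γ₀]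
    (v : Valuation L Γ₀)
    (T : Finset (Fin m × Fin b) → Finset (Fin m × Fin b) → Finset (Fin m × Fin b) → L) : Prop :=
  ∃ A₀ B₀ D₀, IsPartition A₀ B₀ D₀ ∧ HalfAtMost A₀ ∧ HalfAtMost B₀ ∧ HalfAtMost D₀ ∧
    T A₀ B₀ D₀ ≠ 0 ∧ ∀ A B D, ¬ IsPartition A B D → v (T A B D) < v (T A₀ B₀ D₀)

/-- The number of local symmetries of the circuit: the families of permutations of the `m` blocks
that are induced by an automorphism of the circuit.  It is `(b!)^m` exactly for locally
symmetric circuits. -/
noncomputable def Circuit.numLocalSym {m b : ℕ} {L Γ : Type} [Field L] [Fintype Γ]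
    (C : Circuit (Fin m × Fin b) L Γ) : ℕ :=
  Nat.card {g : Fin m → Perm (Fin b) // ∃ τ : Perm Γ, C.IsAut (Equiv.prodCongrRight g) τ}

end Pool.Agent.SAC
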