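import Mathlib
import Pool.Agent.Lib.SAC.Defs

/-!
# Symmetric algebraic circuits: auxiliary definitions
-/

namespace Pool.Agent.SAC

open Equiv Equiv.Perm

/-! ### Groups -/

section group
variable {P : Type} [Group P] {m : ℕ}

/-- the families which are trivial on the blocks before `j` -/
def low (P : Type) [Group P] {m : ℕ} (j : Fin m) : Subgroup (Fin m → P) where
  carrier := {h | ∀ i < j, h i = 1}
  one_mem' := fun _ _ => rfl
  mul_mem' := fun {a b} ha hb i hi => by rw [Pi.mul_apply, ha i hi, hb i hi, one_mul]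
  inv_mem' := fun {a} ha i hi => by rw [Pi.inv_apply, ha i hi, inv_one]

lemma mem_low {j : Fin m} {h : Fin m → P} : h ∈ low P j ↔ ∀ i < j, h i = 1 := Iff.rfl

/-- the elements of `P` which are the value at `j` of an element of `K` trivial on the blocks
before `j` -/
def top (K : Subgroup (Fin m → P)) (j : Fin m) : Subgroup P :=
  (K ⊓ low P j).map (Pi.evalMonoidHom (fun _ : Fin m => P) j)

lemma mem_top {K : Subgroup (Fin m → P)} {j : Fin m} {a : P} :
    a ∈ top K j ↔ ∃ h ∈ K, (∀ i < j, h i = 1) ∧ h j = a := by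
  constructor
  · rintro ⟨h, hh, rfl⟩
    exact ⟨h, hh.1, hh.2, rfl⟩
  · rintro ⟨h, h1, h2, h3⟩
    exact ⟨h, ⟨h1, h2⟩, h3⟩

/-- `i` is a partner of `j` for the subgroup `S` -/
structure Partner (K : Subgroup (Fin m → P)) (S : Subgroup P) (j i : Fin m) : Prop where
  lt : j < i
  all : ∀ a ∈ S, ∃ h ∈ K, h j = a ∧ ∀ k < i, k ≠ j → h k = 1
  none : ∀ h ∈ K, h j ∈ S → (∀ k ≤ i, k ≠ j → h k = 1) → h j = 1

end group

/-- the even permutations which fix all points outside `Ω` -/
def altOn {α : Type} [Fintype α] [DecidableEq α] (Ω : Finset α) : Subgroup (Perm α) where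
  carrier := {a | sign a = 1 ∧ ∀ x, x ∉ Ω → a x = x}
  one_mem' := ⟨sign_one, fun _ _ => rfl⟩
  mul_mem' := fun {a b} ha hb => ⟨by rw [Perm.sign_mul, ha.1, hb.1, one_mul], fun x hx => by
    rw [Perm.mul_apply, hb.2 x hx, ha.2 x hx]⟩
  inv_mem' := fun {a} ha => ⟨by rw [sign_inv, ha.1], fun x hx => by
    rw [Perm.inv_eq_iff_eq, ha.2 x hx]⟩

lemma mem_altOn {α : Type} [Fintype α] [DecidableEq α] {Ω : Finset α} {a : Perm α} :
    a ∈ altOn Ω ↔ sign a = 1 ∧ ∀ x, x ∉ Ω → a x = x := Iff.rfl

/-! ### The functional -/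

section functional
variable {V : Type} [Fintype V] [DecidableEq V]

/-- the class of colour `k` -/
def cl (c : V → Fin 3) (k : Fin 3) : Finset V := Finset.univ.filter (fun p => c p = k)

/-- the class `k` after the points of `S` have been replaced by their partners -/
def tog (c : V → Fin 3) (μ : V → V) (k : Fin 3) (S : Finset V) : Finset V :=
  (cl c k \ S) ∪ S.image μ

/-- the functional -/
noncomputable def phi {L : Type} [Field L] (c : V → Fin 3) (μ : V → V) (E : Finset V) (k : Fin 3)
    (u : Finset V → L) : L :=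
  ∑ S ∈ (E.filter (fun p => c p = k)).powerset, (-1) ^ S.card * u (tog c μ k S)

end functional

/-! ### The action on sets, and stabilisers -/

/-- the image of a set under a family of permutations of the blocks -/
def mv {m b : ℕ} (g : Fin m → Perm (Fin b)) (A : Finset (Fin m × Fin b)) :
    Finset (Fin m × Fin b) := A.map (prodCongrRight g).toEmbedding

lemma mem_mv {m b : ℕ} (g : Fin m → Perm (Fin b)) (A : Finset (Fin m × Fin b)) (j : Fin m)
    (x : Fin b) : (j, x) ∈ mv g A ↔ (j, (g j)⁻¹ x) ∈ A := by
  unfold mv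
  rw [Finset.mem_map]
  constructor
  · rintro ⟨⟨i, y⟩, h, e⟩
    have h1 : i = j := congrArg Prod.fst e
    subst h1
    have h2 : g i y = x := congrArg Prod.snd e
    rw [← h2]
    simpa using h
  · intro h
    refine ⟨(j, (g j)⁻¹ x), h, ?_⟩
    show (j, g j ((g j)⁻¹ x)) = (j, x)
    simp

lemma mv_one {m b : ℕ} (A : Finset (Fin m × Fin b)) : mv 1 A = A := by
  ext ⟨j, x⟩
  rw [mem_mv]
  simp

lemma mv_mul {m b : ℕ} (g h : Fin m → Perm (Fin b)) (A : Finset (Fin m × Fin b)) :
    mv (g * h) A = mv g (mv h A) := by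
  ext ⟨j, x⟩
  rw [mem_mv, mem_mv, mem_mv]
  simp

/-- the stabiliser of a product of three functions -/
def tstab {m b : ℕ} {L : Type} [Field L] (x : Fin 3 → Finset (Fin m × Fin b) → L) :
    Subgroup (Fin m → Perm (Fin b)) where
  carrier := {g | ∀ A B D, x 0 (mv g A) * x 1 (mv g B) * x 2 (mv g D) = x 0 A * x 1 B * x 2 D}
  one_mem' := by
    intro A B D
    rw [mv_one, mv_one, mv_one]
  mul_mem' := by
    intro g h hg hh A B D
    rw [mv_mul, mv_mul, mv_mul, hg, hh]
  inv_mem' := by
    intro g hg A B D
    have e : ∀ A : Finset (Fin m × Fin b), mv g (mv g⁻¹ A) = A := by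
      intro A
      rw [← mv_mul, mul_inv_cancel, mv_one]
    have := hg (mv g⁻¹ A) (mv g⁻¹ B) (mv g⁻¹ D)
    rw [e, e, e] at this
    exact this.symm

lemma mem_tstab {m b : ℕ} {L : Type} [Field L] {x : Fin 3 → Finset (Fin m × Fin b) → L}
    {g : Fin m → Perm (Fin b)} : g ∈ tstab x ↔
      ∀ A B D, x 0 (mv g A) * x 1 (mv g B) * x 2 (mv g D) = x 0 A * x 1 B * x 2 D := Iff.rfl

/-! ### Coefficients -/

section coeff
variable {X L : Type} [Field L]
open MvPolynomial

/-- the constant coefficient -/
noncomputable def k0 (P : MvPolynomial X L) : L := constantCoeff P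
/-- the coefficient of a variable -/
noncomputable def k1 (p : X) (P : MvPolynomial X L) : L := P.coeff (Finsupp.single p 1)
/-- the coefficient of a product of two variables -/
noncomputable def k2 (p q : X) (P : MvPolynomial X L) : L :=
  P.coeff (Finsupp.single p 1 + Finsupp.single q 1)
/-- the coefficient of a product of three variables -/
noncomputable def k3 (p q r : X) (P : MvPolynomial X L) : L :=
  P.coeff (Finsupp.single p 1 + Finsupp.single q 1 + Finsupp.single r 1)

end coeff

/-! ### The adjoint -/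

section circuit
variable {V L Γ : Type} [Field L] [Fintype V] [Fintype Γ]

open Classical in
/-- the derivative of the polynomial of gate `h` with respect to the product of gate `g` -/
noncomputable def Circuit.adj (C : Circuit V L Γ) (g h : Γ) :
    MvPolynomial (Fin 3 × Finset V) L :=
  (if h = g then 1 else 0) +
    (∑ k : Γ, if _hw : C.lin h k ≠ 0 then MvPolynomial.C (C.lin h k) * C.adj g k else 0) +
    (if _hp : C.isProd h = true then
      C.val (C.left h) * C.adj g (C.right h) + C.val (C.right h) * C.adj g (C.left h) else 0)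
termination_by C.rank h
decreasing_by
  · exact C.lin_lt _hw
  · exact C.right_lt _hp
  · exact C.left_lt _hp

/-- the action on variables -/
def vmove (π : Perm V) (p : Fin 3 × Finset V) : Fin 3 × Finset V := (p.1, p.2.map π.toEmbedding)

/-- the three forms of a product -/
noncomputable def Circuit.form (C : Circuit V L Γ) (h : Γ) (t : Fin 3) :
    MvPolynomial (Fin 3 × Finset V) L :=
  if t = 0 then C.val (C.left h) else if t = 1 then C.val (C.right h) else C.adj h C.out

end circuit

end Pool.Agent.SAC
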