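import Mathlib
import Pool.Agent.Lib.SAC.Base

/-!
# Symmetric algebraic circuits: coefficients of products (row C)
-/

namespace Pool.Agent.SAC

section coeff
variable {X L : Type} [Field L]
open MvPolynomial

lemma k1_eq (p : X) (P : MvPolynomial X L) : k1 p P = k0 (pderiv p P) := by
  unfold k1 k0
  rw [constantCoeff_eq, coeff_pderiv]
  simp

lemma k2_eq {p q : X} (h : p ≠ q) (P : MvPolynomial X L) : k2 p q P = k1 q (pderiv p P) := by
  unfold k1 k2
  rw [coeff_pderiv, Finsupp.single_eq_of_ne h, add_comm (Finsupp.single q 1)]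
  simp

lemma k3_eq {p q r : X} (hpq : p ≠ q) (hpr : p ≠ r) (P : MvPolynomial X L) :
    k3 p q r P = k2 q r (pderiv p P) := by
  unfold k2 k3
  rw [coeff_pderiv, Finsupp.add_apply, Finsupp.single_eq_of_ne hpq, Finsupp.single_eq_of_ne hpr,
    add_comm (Finsupp.single q 1 + Finsupp.single r 1), ← add_assoc]
  simp

lemma k0_mul (P Q : MvPolynomial X L) : k0 (P * Q) = k0 P * k0 Q := map_mul _ _ _

lemma k0_add (P Q : MvPolynomial X L) : k0 (P + Q) = k0 P + k0 Q := map_add _ _ _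

lemma k1_add (p : X) (P Q : MvPolynomial X L) : k1 p (P + Q) = k1 p P + k1 p Q :=
  coeff_add _ _ _

lemma k2_add (p q : X) (P Q : MvPolynomial X L) : k2 p q (P + Q) = k2 p q P + k2 p q Q :=
  coeff_add _ _ _

/-- Row C1 -/
theorem k1_mul (p : X) (P Q : MvPolynomial X L) : k1 p (P * Q) = k0 P * k1 p Q + k1 p P * k0 Q := by
  rw [k1_eq, pderiv_mul, k0_add, k0_mul, k0_mul, k1_eq, k1_eq]
  ring

/-- Row C2 -/
theorem k2_mul {p q : X} (h : p ≠ q) (P Q : MvPolynomial X L) :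
    k2 p q (P * Q) = k0 P * k2 p q Q + k2 p q P * k0 Q + k1 p P * k1 q Q + k1 q P * k1 p Q := by
  rw [k2_eq h, pderiv_mul, k1_add, k1_mul, k1_mul, k2_eq h, k2_eq h, k1_eq p P, k1_eq p Q]
  ring

/-- Row C3 -/
theorem k3_mul {p q r : X} (hpq : p ≠ q) (hpr : p ≠ r) (hqr : q ≠ r) (P Q : MvPolynomial X L) :
    k3 p q r (P * Q) = k0 P * k3 p q r Q + k3 p q r P * k0 Q +
      k1 p P * k2 q r Q + k1 q P * k2 p r Q + k1 r P * k2 p q Q +
      k2 q r P * k1 p Q + k2 p r P * k1 q Q + k2 p q P * k1 r Q := by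
  rw [k3_eq hpq hpr, pderiv_mul, k2_add, k2_mul hqr, k2_mul hqr, k3_eq hpq hpr, k3_eq hpq hpr,
    k2_eq hpq P, k2_eq hpq Q, k2_eq hpr P, k2_eq hpr Q, k1_eq p P, k1_eq p Q]
  ring

end coeff

end Pool.Agent.SAC
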