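import Mathlib
import Pool.Agent.Lib.SAC.C

/-!
# Symmetric algebraic circuits: the adjoint and the trilinear identity (row D)
-/

namespace Pool.Agent.SAC

open MvPolynomial

section lin
variable {X L : Type} [Field L]

/-- a coefficient functional on polynomials -/
lemma coeff_sum_C_mul {ι : Type} (s : Finset ι) (m : X →₀ ℕ) (a : ι → L)
    (f : ι → MvPolynomial X L) :
    MvPolynomial.coeff m (∑ i ∈ s, MvPolynomial.C (a i) * f i) =
      ∑ i ∈ s, a i * MvPolynomial.coeff m (f i) := by
  rw [MvPolynomial.coeff_sum]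
  exact Finset.sum_congr rfl fun i _ => MvPolynomial.coeff_C_mul _ _ _

end lin

section circuit
variable {V L Γ : Type} [Field L] [Fintype V] [Fintype Γ]

open Classical in
lemma Circuit.val_eq (C : Circuit V L Γ) (g : Γ) :
    C.val g = MvPolynomial.C (C.const g) +
      ∑ p : Fin 3 × Finset V, MvPolynomial.C (C.var g p) * MvPolynomial.X p +
      (∑ h : Γ, MvPolynomial.C (C.lin g h) * C.val h) +
      (if C.isProd g = true then C.val (C.left g) * C.val (C.right g) else 0) := by
  rw [Circuit.val]
  congr 1
  · congr 1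
    refine Finset.sum_congr rfl fun h _ => ?_
    split_ifs with hw
    · rfl
    · rw [not_not.1 hw]
      simp

open Classical in
lemma Circuit.adj_eq (C : Circuit V L Γ) (g h : Γ) :
    C.adj g h = (if h = g then 1 else 0) +
      (∑ k : Γ, MvPolynomial.C (C.lin h k) * C.adj g k) +
      (if C.isProd h = true then
        C.val (C.left h) * C.adj g (C.right h) + C.val (C.right h) * C.adj g (C.left h) else 0) := by
  rw [Circuit.adj]
  congr 1
  · congr 1
    refine Finset.sum_congr rfl fun k _ => ?_
    split_ifs with hw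
    · rfl
    · rw [not_not.1 hw]
      simp

/-- the coefficients of degree at least two of a gate -/
lemma Circuit.coeff_val (C : Circuit V L Γ) (g : Γ) (m : (Fin 3 × Finset V) →₀ ℕ) (hm0 : m ≠ 0)
    (hm1 : ∀ p, m ≠ Finsupp.single p 1) :
    MvPolynomial.coeff m (C.val g) =
      (∑ h : Γ, C.lin g h * MvPolynomial.coeff m (C.val h)) +
      (if C.isProd g = true then
        MvPolynomial.coeff m (C.val (C.left g) * C.val (C.right g)) else 0) := by
  classical
  rw [C.val_eq, MvPolynomial.coeff_add, MvPolynomial.coeff_add, MvPolynomial.coeff_add,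
    coeff_sum_C_mul, coeff_sum_C_mul, MvPolynomial.coeff_C, if_neg (Ne.symm hm0), zero_add]
  have h1 : ∑ p : Fin 3 × Finset V, C.var g p *
      MvPolynomial.coeff m (MvPolynomial.X p : MvPolynomial (Fin 3 × Finset V) L) = 0 := by
    refine Finset.sum_eq_zero fun p _ => ?_
    rw [MvPolynomial.coeff_X, if_neg (Ne.symm (hm1 p)), mul_zero]
  rw [h1, zero_add]
  split_ifs <;> simp

open Classical in
/-- the coefficients of the adjoint -/
lemma Circuit.coeff_adj (C : Circuit V L Γ) (g h : Γ) (m : (Fin 3 × Finset V) →₀ ℕ) :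
    MvPolynomial.coeff m (C.adj g h) =
      MvPolynomial.coeff m (if h = g then 1 else 0) +
      (∑ k : Γ, C.lin h k * MvPolynomial.coeff m (C.adj g k)) +
      (if C.isProd h = true then
        MvPolynomial.coeff m (C.val (C.left h) * C.adj g (C.right h)) +
        MvPolynomial.coeff m (C.val (C.right h) * C.adj g (C.left h)) else 0) := by
  classical
  rw [C.adj_eq, MvPolynomial.coeff_add, MvPolynomial.coeff_add, coeff_sum_C_mul]
  congr 1
  split_ifs
  · rw [MvPolynomial.coeff_add]
  · simp

omit [Fintype V] [Fintype Γ] in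
lemma Circuit.lin_zero (C : Circuit V L Γ) {g h : Γ} (hr : ¬ C.rank h < C.rank g) :
    C.lin g h = 0 := by
  by_contra hne
  exact hr (C.lin_lt hne)

omit [Fintype V] in
/-- induction over the circuit for two functions with the same recursion -/
lemma Circuit.ind (C : Circuit V L Γ) (F G : Γ → L)
    (H : ∀ g, (∀ h, C.rank h < C.rank g → F h = G h) →
      F g - ∑ h, C.lin g h * F h = G g - ∑ h, C.lin g h * G h) (g : Γ) : F g = G g := by
  have key : ∀ n, ∀ g, C.rank g < n → F g = G g := by
    intro n
    induction n with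
    | zero => intro g hg; exact absurd hg (Nat.not_lt_zero _)
    | succ n ih =>
      intro g hg
      have h1 : ∀ h, C.rank h < C.rank g → F h = G h := fun h hh => ih h (by omega)
      have h2 : ∑ h, C.lin g h * F h = ∑ h, C.lin g h * G h := by
        refine Finset.sum_congr rfl fun h _ => ?_
        by_cases hh : C.rank h < C.rank g
        · rw [h1 h hh]
        · rw [C.lin_zero hh, zero_mul, zero_mul]
      have h3 := H g h1
      rw [h2] at h3
      exact sub_left_injective h3
  exact key _ g (Nat.lt_succ_self _)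

lemma k0_one_ite {X : Type} (q : Prop) [Decidable q] :
    k0 (if q then (1 : MvPolynomial X L) else 0) = if q then 1 else 0 := by
  split_ifs
  · exact map_one _
  · exact map_zero _

lemma k1_one_ite {X : Type} (p : X) (q : Prop) [Decidable q] :
    k1 p (if q then (1 : MvPolynomial X L) else 0) = 0 := by
  classical
  unfold k1
  split_ifs
  · rw [MvPolynomial.coeff_one, if_neg]
    exact fun h => by
      have := DFunLike.congr_fun h p
      simp at this
  · exact MvPolynomial.coeff_zero _

lemma Circuit.k0_adj (C : Circuit V L Γ) (g h : Γ) [Decidable (h = g)] :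
    k0 (C.adj g h) = (if h = g then 1 else 0) + (∑ k : Γ, C.lin h k * k0 (C.adj g k)) +
      (if C.isProd h = true then k0 (C.val (C.left h)) * k0 (C.adj g (C.right h)) +
        k0 (C.val (C.right h)) * k0 (C.adj g (C.left h)) else 0) := by
  have h1 := C.coeff_adj g h 0
  have e : ∀ P : MvPolynomial (Fin 3 × Finset V) L, MvPolynomial.coeff 0 P = k0 P := fun P => rfl
  simp only [e] at h1
  rw [h1, k0_mul, k0_mul]
  congr 2
  rw [k0_one_ite]
  congr

lemma Circuit.k1_adj (C : Circuit V L Γ) (p : Fin 3 × Finset V) (g h : Γ) :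
    k1 p (C.adj g h) = (∑ k : Γ, C.lin h k * k1 p (C.adj g k)) +
      (if C.isProd h = true then
        (k0 (C.val (C.left h)) * k1 p (C.adj g (C.right h)) +
          k1 p (C.val (C.left h)) * k0 (C.adj g (C.right h))) +
        (k0 (C.val (C.right h)) * k1 p (C.adj g (C.left h)) +
          k1 p (C.val (C.right h)) * k0 (C.adj g (C.left h))) else 0) := by
  classical
  have h1 := C.coeff_adj g h (Finsupp.single p 1)
  have e : ∀ P : MvPolynomial (Fin 3 × Finset V) L,
    MvPolynomial.coeff (Finsupp.single p 1) P = k1 p P := fun P => rfl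
  simp only [e] at h1
  rw [h1, k1_mul, k1_mul]
  have h2 := k1_one_ite (L := L) p (h = g)
  rw [h2, zero_add]

/-- the two linear factors at a product gate -/
noncomputable def Circuit.cc (C : Circuit V L Γ) (p q : Fin 3 × Finset V) (h : Γ) : L :=
  k1 p (C.val (C.left h)) * k1 q (C.val (C.right h)) +
    k1 q (C.val (C.left h)) * k1 p (C.val (C.right h))

lemma single_add_ne_single {X : Type} (p q : X) (r : X) :
    Finsupp.single p 1 + Finsupp.single q 1 ≠ (Finsupp.single r 1 : X →₀ ℕ) := by
  intro h
  have := congrArg (fun f : X →₀ ℕ => f.sum fun _ n => n) h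
  rw [Finsupp.sum_add_index' (fun _ => rfl) (fun _ _ _ => rfl), Finsupp.sum_single_index rfl,
    Finsupp.sum_single_index rfl, Finsupp.sum_single_index rfl] at this
  omega

lemma single_add_ne_zero {X : Type} (p : X) (f : X →₀ ℕ) : f + Finsupp.single p 1 ≠ 0 := by
  intro h
  have := DFunLike.congr_fun h p
  simp at this

lemma single_add3_ne_single {X : Type} (p q s : X) (r : X) :
    Finsupp.single p 1 + Finsupp.single q 1 + Finsupp.single s 1 ≠
      (Finsupp.single r 1 : X →₀ ℕ) := by
  intro h
  have := congrArg (fun f : X →₀ ℕ => f.sum fun _ n => n) h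
  rw [Finsupp.sum_add_index' (fun _ => rfl) (fun _ _ _ => rfl),
    Finsupp.sum_add_index' (fun _ => rfl) (fun _ _ _ => rfl), Finsupp.sum_single_index rfl,
    Finsupp.sum_single_index rfl, Finsupp.sum_single_index rfl,
    Finsupp.sum_single_index rfl] at this
  omega

lemma Circuit.k2_rec (C : Circuit V L Γ) {p q : Fin 3 × Finset V} (h : p ≠ q) (g : Γ) :
    k2 p q (C.val g) = (∑ h : Γ, C.lin g h * k2 p q (C.val h)) +
      (if C.isProd g = true then k0 (C.val (C.left g)) * k2 p q (C.val (C.right g)) +
        k2 p q (C.val (C.left g)) * k0 (C.val (C.right g)) + C.cc p q g else 0) := by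
  have h1 := C.coeff_val g (Finsupp.single p 1 + Finsupp.single q 1)
    (single_add_ne_zero _ _) (single_add_ne_single _ _)
  have e : ∀ P : MvPolynomial (Fin 3 × Finset V) L,
    MvPolynomial.coeff (Finsupp.single p 1 + Finsupp.single q 1) P = k2 p q P := fun P => rfl
  simp only [e] at h1
  rw [h1, k2_mul h]
  congr 2
  unfold Circuit.cc
  ring

lemma Circuit.k3_rec (C : Circuit V L Γ) {p q r : Fin 3 × Finset V} (hpq : p ≠ q)
    (hpr : p ≠ r) (hqr : q ≠ r) (g : Γ) :
    k3 p q r (C.val g) = (∑ h : Γ, C.lin g h * k3 p q r (C.val h)) +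
      (if C.isProd g = true then k0 (C.val (C.left g)) * k3 p q r (C.val (C.right g)) +
        k3 p q r (C.val (C.left g)) * k0 (C.val (C.right g)) +
        k1 p (C.val (C.left g)) * k2 q r (C.val (C.right g)) +
        k1 q (C.val (C.left g)) * k2 p r (C.val (C.right g)) +
        k1 r (C.val (C.left g)) * k2 p q (C.val (C.right g)) +
        k2 q r (C.val (C.left g)) * k1 p (C.val (C.right g)) +
        k2 p r (C.val (C.left g)) * k1 q (C.val (C.right g)) +
        k2 p q (C.val (C.left g)) * k1 r (C.val (C.right g)) else 0) := by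
  have h1 := C.coeff_val g (Finsupp.single p 1 + Finsupp.single q 1 + Finsupp.single r 1)
    (single_add_ne_zero _ _) (single_add3_ne_single _ _ _)
  have e : ∀ P : MvPolynomial (Fin 3 × Finset V) L,
    MvPolynomial.coeff (Finsupp.single p 1 + Finsupp.single q 1 + Finsupp.single r 1) P =
      k3 p q r P := fun P => rfl
  simp only [e] at h1
  rw [h1, k3_mul hpq hpr hqr]

/-- Row D1 -/
theorem Circuit.k2_val (C : Circuit V L Γ) {p q : Fin 3 × Finset V} (h : p ≠ q) (g : Γ) :
    k2 p q (C.val g) = ∑ h : {h : Γ // C.isProd h = true},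
      (k1 p (C.val (C.left h)) * k1 q (C.val (C.right h)) +
        k1 q (C.val (C.left h)) * k1 p (C.val (C.right h))) * k0 (C.adj h g) := by
  classical
  have e : ∀ g, ∑ h : {h : Γ // C.isProd h = true},
      (k1 p (C.val (C.left h)) * k1 q (C.val (C.right h)) +
        k1 q (C.val (C.left h)) * k1 p (C.val (C.right h))) * k0 (C.adj h g) =
      ∑ h : {h : Γ // C.isProd h = true}, C.cc p q h * k0 (C.adj h g) := fun g => rfl
  rw [e]
  refine C.ind (fun g => k2 p q (C.val g))
    (fun g => ∑ h : {h : Γ // C.isProd h = true}, C.cc p q h * k0 (C.adj h g)) ?_ g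
  intro g ih
  rw [C.k2_rec h g, add_sub_cancel_left]
  have h1 : ∑ h : {h : Γ // C.isProd h = true}, C.cc p q h * k0 (C.adj h g) =
      (∑ h : {h : Γ // C.isProd h = true}, C.cc p q h * (if g = (h : Γ) then 1 else 0)) +
      (∑ h' : Γ, C.lin g h' *
        ∑ h : {h : Γ // C.isProd h = true}, C.cc p q h * k0 (C.adj h h')) +
      (if C.isProd g = true then k0 (C.val (C.left g)) *
          (∑ h : {h : Γ // C.isProd h = true}, C.cc p q h * k0 (C.adj h (C.right g))) +
        k0 (C.val (C.right g)) *
          (∑ h : {h : Γ // C.isProd h = true}, C.cc p q h * k0 (C.adj h (C.left g))) else 0) := by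
    have h2 : ∀ h : {h : Γ // C.isProd h = true}, C.cc p q h * k0 (C.adj h g) =
        C.cc p q h * (if g = (h : Γ) then 1 else 0) +
        (∑ h' : Γ, C.lin g h' * (C.cc p q h * k0 (C.adj h h'))) +
        (if C.isProd g = true then
          k0 (C.val (C.left g)) * (C.cc p q h * k0 (C.adj h (C.right g))) +
          k0 (C.val (C.right g)) * (C.cc p q h * k0 (C.adj h (C.left g))) else 0) := by
      intro h
      rw [C.k0_adj h g, mul_add, mul_add, Finset.mul_sum]
      congr 1
      · congr 1
        refine Finset.sum_congr rfl fun h' _ => ?_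
        ring
      · split_ifs
        · ring
        · ring
    rw [Finset.sum_congr rfl fun h _ => h2 h, Finset.sum_add_distrib, Finset.sum_add_distrib]
    congr 1
    · congr 1
      rw [Finset.sum_comm]
      refine Finset.sum_congr rfl fun h' _ => ?_
      rw [Finset.mul_sum]
    · split_ifs
      · rw [Finset.sum_add_distrib, Finset.mul_sum, Finset.mul_sum]
      · simp
  rw [h1]
  by_cases hg : C.isProd g = true
  · rw [if_pos hg, if_pos hg]
    have h3 : ∑ h : {h : Γ // C.isProd h = true}, C.cc p q h * (if g = (h : Γ) then 1 else 0) =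
        C.cc p q g := by
      rw [Finset.sum_eq_single (⟨g, hg⟩ : {h : Γ // C.isProd h = true})]
      · simp
      · intro h _ hne
        rw [if_neg, mul_zero]
        intro h4
        exact hne (Subtype.ext h4.symm)
      · intro h4
        exact absurd (Finset.mem_univ _) h4
    rw [h3, ← ih _ (C.left_lt hg), ← ih _ (C.right_lt hg)]
    ring
  · rw [if_neg hg, if_neg hg]
    have h3 : ∑ h : {h : Γ // C.isProd h = true}, C.cc p q h * (if g = (h : Γ) then 1 else 0) =
        0 := by
      refine Finset.sum_eq_zero fun h _ => ?_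
      rw [if_neg, mul_zero]
      intro h4
      exact hg (by rw [h4]; exact h.2)
    rw [h3]
    ring

/-- Row D2 -/
theorem Circuit.k3_val (C : Circuit V L Γ) {p q r : Fin 3 × Finset V} (hpq : p ≠ q)
    (hpr : p ≠ r) (hqr : q ≠ r) (g : Γ) :
    k3 p q r (C.val g) = ∑ h : {h : Γ // C.isProd h = true},
      ((k1 p (C.val (C.left h)) * k1 q (C.val (C.right h)) +
        k1 q (C.val (C.left h)) * k1 p (C.val (C.right h))) * k1 r (C.adj h g) +
      (k1 p (C.val (C.left h)) * k1 r (C.val (C.right h)) +
        k1 r (C.val (C.left h)) * k1 p (C.val (C.right h))) * k1 q (C.adj h g) +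
      (k1 q (C.val (C.left h)) * k1 r (C.val (C.right h)) +
        k1 r (C.val (C.left h)) * k1 q (C.val (C.right h))) * k1 p (C.adj h g)) := by
  classical
  have e : ∀ g, ∑ h : {h : Γ // C.isProd h = true},
      ((k1 p (C.val (C.left h)) * k1 q (C.val (C.right h)) +
        k1 q (C.val (C.left h)) * k1 p (C.val (C.right h))) * k1 r (C.adj h g) +
      (k1 p (C.val (C.left h)) * k1 r (C.val (C.right h)) +
        k1 r (C.val (C.left h)) * k1 p (C.val (C.right h))) * k1 q (C.adj h g) +
      (k1 q (C.val (C.left h)) * k1 r (C.val (C.right h)) +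
        k1 r (C.val (C.left h)) * k1 q (C.val (C.right h))) * k1 p (C.adj h g)) =
      (∑ h : {h : Γ // C.isProd h = true}, C.cc p q h * k1 r (C.adj h g)) +
      (∑ h : {h : Γ // C.isProd h = true}, C.cc p r h * k1 q (C.adj h g)) +
      ∑ h : {h : Γ // C.isProd h = true}, C.cc q r h * k1 p (C.adj h g) := by
    intro g
    rw [← Finset.sum_add_distrib, ← Finset.sum_add_distrib]
    rfl
  rw [e]
  -- the recursion for one of the three sums
  have h1 : ∀ (a b s : Fin 3 × Finset V) (hab : a ≠ b) (g : Γ),
      ∑ h : {h : Γ // C.isProd h = true}, C.cc a b h * k1 s (C.adj h g) =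
      (∑ h' : Γ, C.lin g h' *
        ∑ h : {h : Γ // C.isProd h = true}, C.cc a b h * k1 s (C.adj h h')) +
      (if C.isProd g = true then k0 (C.val (C.left g)) *
          (∑ h : {h : Γ // C.isProd h = true}, C.cc a b h * k1 s (C.adj h (C.right g))) +
        k0 (C.val (C.right g)) *
          (∑ h : {h : Γ // C.isProd h = true}, C.cc a b h * k1 s (C.adj h (C.left g))) +
        k1 s (C.val (C.left g)) * k2 a b (C.val (C.right g)) +
        k1 s (C.val (C.right g)) * k2 a b (C.val (C.left g)) else 0) := by
    intro a b s hab g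
    have h2 : ∀ h : {h : Γ // C.isProd h = true}, C.cc a b h * k1 s (C.adj h g) =
        (∑ h' : Γ, C.lin g h' * (C.cc a b h * k1 s (C.adj h h'))) +
        (if C.isProd g = true then
          k0 (C.val (C.left g)) * (C.cc a b h * k1 s (C.adj h (C.right g))) +
          k0 (C.val (C.right g)) * (C.cc a b h * k1 s (C.adj h (C.left g))) +
          k1 s (C.val (C.left g)) * (C.cc a b h * k0 (C.adj h (C.right g))) +
          k1 s (C.val (C.right g)) * (C.cc a b h * k0 (C.adj h (C.left g))) else 0) := by
      intro h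
      rw [C.k1_adj s h g, mul_add, Finset.mul_sum]
      congr 1
      · refine Finset.sum_congr rfl fun h' _ => ?_
        ring
      · split_ifs
        · ring
        · ring
    have h3 : ∀ g', k2 a b (C.val g') =
        ∑ h : {h : Γ // C.isProd h = true}, C.cc a b h * k0 (C.adj h g') := fun g' =>
      C.k2_val hab g'
    rw [Finset.sum_congr rfl fun h _ => h2 h, Finset.sum_add_distrib]
    congr 1
    · rw [Finset.sum_comm]
      refine Finset.sum_congr rfl fun h' _ => ?_
      rw [Finset.mul_sum]
    · split_ifs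
      · rw [Finset.sum_add_distrib, Finset.sum_add_distrib, Finset.sum_add_distrib, h3, h3,
          Finset.mul_sum, Finset.mul_sum, Finset.mul_sum, Finset.mul_sum]
      · simp
  refine C.ind (fun g => k3 p q r (C.val g))
    (fun g => (∑ h : {h : Γ // C.isProd h = true}, C.cc p q h * k1 r (C.adj h g)) +
      (∑ h : {h : Γ // C.isProd h = true}, C.cc p r h * k1 q (C.adj h g)) +
      ∑ h : {h : Γ // C.isProd h = true}, C.cc q r h * k1 p (C.adj h g)) ?_ g
  intro g ih
  beta_reduce at ih ⊢
  rw [C.k3_rec hpq hpr hqr g, add_sub_cancel_left, h1 p q r hpq g, h1 p r q hpr g,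
    h1 q r p hqr g]
  have h4 : ∑ h', C.lin g h' *
      ((∑ h : {h : Γ // C.isProd h = true}, C.cc p q h * k1 r (C.adj h h')) +
      (∑ h : {h : Γ // C.isProd h = true}, C.cc p r h * k1 q (C.adj h h')) +
      ∑ h : {h : Γ // C.isProd h = true}, C.cc q r h * k1 p (C.adj h h')) =
      (∑ h', C.lin g h' *
        ∑ h : {h : Γ // C.isProd h = true}, C.cc p q h * k1 r (C.adj h h')) +
      (∑ h', C.lin g h' *
        ∑ h : {h : Γ // C.isProd h = true}, C.cc p r h * k1 q (C.adj h h')) +
      ∑ h', C.lin g h' *
        ∑ h : {h : Γ // C.isProd h = true}, C.cc q r h * k1 p (C.adj h h') := by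
    rw [← Finset.sum_add_distrib, ← Finset.sum_add_distrib]
    refine Finset.sum_congr rfl fun h' _ => ?_
    ring
  rw [h4]
  by_cases hg : C.isProd g = true
  · rw [if_pos hg, if_pos hg, if_pos hg, if_pos hg]
    have h5 := ih _ (C.left_lt hg)
    have h6 := ih _ (C.right_lt hg)
    rw [h5, h6]
    ring
  · rw [if_neg hg, if_neg hg, if_neg hg, if_neg hg]
    ring

end circuit

end Pool.Agent.SAC
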