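import Mathlib
import Pool.Agent.Lib.SAC.D

/-!
# Symmetric algebraic circuits: the upper bound (row U)
-/

namespace Pool.Agent.SAC

open Equiv

section upper
variable (V L : Type) [Fintype V] [Field L]

open Classical in
/-- The circuit of the upper bound. The gates `(S,0), (S,1), (S,2)` compute the sums over the sets
disjoint from `S`, the gates `(S,3), (S,4)` compute products, the gate `none` the alternating
sum. -/
noncomputable def upC (f : Fin 3 → ℕ → L) : Circuit V L (Option (Finset V × Fin 5)) where
  const := fun _ => 0
  var := fun g p => match g with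
    | none => 0
    | some (S, t) => if t.val = p.1.val ∧ Disjoint p.2 S then f p.1 p.2.card else 0
  lin := fun g h => match g, h with
    | none, some (S, t) => if t = 4 then (-1) ^ S.card else 0
    | _, _ => 0
  isProd := fun g => match g with
    | none => false
    | some (_, t) => decide (t = 3 ∨ t = 4)
  left := fun g => match g with
    | none => none
    | some (S, t) => if t = 3 then some (S, 0) else some (S, 3)
  right := fun g => match g with
    | none => none
    | some (S, t) => if t = 3 then some (S, 1) else some (S, 2)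
  rank := fun g => match g with
    | none => 3
    | some (_, t) => if t = 4 then 2 else if t = 3 then 1 else 0
  lin_lt := by
    rintro (_ | ⟨S, t⟩) (_ | ⟨S', t'⟩) h
    · exact absurd rfl h
    · show (if t' = 4 then 2 else if t' = 3 then 1 else 0) < 3
      split_ifs <;> norm_num
    · exact absurd rfl h
    · exact absurd rfl h
  left_lt := by
    rintro (_ | ⟨S, t⟩) h
    · exact absurd h Bool.false_ne_true
    · have h' : t = 3 ∨ t = 4 := of_decide_eq_true h
      rcases h' with rfl | rfl
      · simp
      · simp
  right_lt := by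
    rintro (_ | ⟨S, t⟩) h
    · exact absurd h Bool.false_ne_true
    · have h' : t = 3 ∨ t = 4 := of_decide_eq_true h
      rcases h' with rfl | rfl
      · simp
      · simp
  out := none

variable {V L}

open Classical in
lemma upC_form (f : Fin 3 → ℕ → L) (S : Finset V) (t : Fin 5) (k : Fin 3) (h : t.val = k.val) :
    (upC V L f).val (some (S, t)) = ∑ A : Finset V,
      if Disjoint A S then MvPolynomial.C (f k A.card) * MvPolynomial.X (k, A) else 0 := by
  have ht : ¬ (t = 3 ∨ t = 4) := by
    rintro (rfl | rfl)
    · have := k.isLt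
      have h' : (3 : ℕ) = k.val := h
      omega
    · have := k.isLt
      have h' : (4 : ℕ) = k.val := h
      omega
  rw [Circuit.val_eq]
  have h1 : (upC V L f).const (some (S, t)) = 0 := rfl
  have h2 : ∀ g, (upC V L f).lin (some (S, t)) g = 0 := by
    rintro (_ | _) <;> rfl
  have h3 : (upC V L f).isProd (some (S, t)) = decide (t = 3 ∨ t = 4) := rfl
  have h4 : ∀ p, (upC V L f).var (some (S, t)) p =
    if t.val = p.1.val ∧ Disjoint p.2 S then f p.1 p.2.card else 0 := fun p => rfl
  rw [h1, h3, if_neg (by simpa using ht)]
  simp only [h2, h4, map_zero, zero_mul, Finset.sum_const_zero, zero_add, add_zero]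
  rw [Fintype.sum_prod_type, Finset.sum_eq_single k]
  · refine Finset.sum_congr rfl fun A _ => ?_
    by_cases hA : Disjoint A S
    · rw [if_pos ⟨h, hA⟩, if_pos hA]
    · rw [if_neg fun e => hA e.2, if_neg hA, map_zero, zero_mul]
  · intro l _ hl
    refine Finset.sum_eq_zero fun A _ => ?_
    rw [if_neg, map_zero, zero_mul]
    rintro ⟨e, -⟩
    exact hl (Fin.ext (e.symm.trans h))
  · intro hk
    exact absurd (Finset.mem_univ _) hk

open Classical in
lemma upC_prod (f : Fin 3 → ℕ → L) (S : Finset V) (t : Fin 5) (ht : t = 3 ∨ t = 4) :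
    (upC V L f).val (some (S, t)) = (upC V L f).val ((upC V L f).left (some (S, t))) *
      (upC V L f).val ((upC V L f).right (some (S, t))) := by
  rw [Circuit.val_eq]
  have h1 : (upC V L f).const (some (S, t)) = 0 := rfl
  have h2 : ∀ g, (upC V L f).lin (some (S, t)) g = 0 := by
    rintro (_ | _) <;> rfl
  have h3 : (upC V L f).isProd (some (S, t)) = decide (t = 3 ∨ t = 4) := rfl
  have h4 : ∀ p, (upC V L f).var (some (S, t)) p = 0 := by
    intro p
    have h5 : (upC V L f).var (some (S, t)) p =
      if t.val = p.1.val ∧ Disjoint p.2 S then f p.1 p.2.card else 0 := rfl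
    rw [h5, if_neg]
    rintro ⟨e, -⟩
    have h6 := p.1.isLt
    rcases ht with rfl | rfl
    · have h' : (3 : ℕ) = p.1.val := e
      omega
    · have h' : (4 : ℕ) = p.1.val := e
      omega
  rw [h1, h3, if_pos (by simpa using ht)]
  simp only [h2, h4, map_zero, zero_mul, Finset.sum_const_zero, zero_add, add_zero]

lemma upC_out (f : Fin 3 → ℕ → L) :
    (upC V L f).val none = ∑ S : Finset V, MvPolynomial.C ((-1) ^ S.card) *
      (upC V L f).val (some (S, 4)) := by
  classical
  rw [Circuit.val_eq]
  have h1 : (upC V L f).const none = 0 := rfl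
  have h2 : (upC V L f).lin none none = 0 := rfl
  have h2' : ∀ S t, (upC V L f).lin none (some (S, t)) = if t = 4 then (-1) ^ S.card else 0 :=
    fun S t => rfl
  have h3 : (upC V L f).isProd none = false := rfl
  have h4 : ∀ p, (upC V L f).var none p = 0 := fun p => rfl
  rw [h1, h3, if_neg Bool.false_ne_true]
  simp only [h4, map_zero, zero_mul, Finset.sum_const_zero, zero_add, add_zero]
  rw [Fintype.sum_option, h2, map_zero, zero_mul, zero_add, Fintype.sum_prod_type]
  refine Finset.sum_congr rfl fun S _ => ?_
  rw [Finset.sum_eq_single (4 : Fin 5)]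
  · rw [h2', if_pos rfl]
  · intro t _ ht
    rw [h2', if_neg ht, map_zero, zero_mul]
  · intro h
    exact absurd (Finset.mem_univ _) h

lemma sum_sign {V R : Type} [Fintype V] [DecidableEq V] [CommRing R] (U : Finset V) :
    ∑ S : Finset V, (if Disjoint U S then (-1 : R) ^ S.card else 0) =
      if U = Finset.univ then 1 else 0 := by
  have h := Finset.sum_powerset_neg_one_pow_card (x := Uᶜ)
  have h1 := congrArg (Int.cast : ℤ → R) h
  rw [Int.cast_sum] at h1
  have h2 : ∑ S : Finset V, (if Disjoint U S then (-1 : R) ^ S.card else 0) =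
      ∑ S ∈ Uᶜ.powerset, (-1 : R) ^ S.card := by
    rw [← Finset.sum_filter]
    refine Finset.sum_congr ?_ fun _ _ => rfl
    ext S
    rw [Finset.mem_filter, Finset.mem_powerset, Finset.subset_compl_iff_disjoint_left]
    simp
  rw [h2]
  have h3 : (Uᶜ = ∅) ↔ (U = Finset.univ) := Finset.compl_eq_empty_iff U
  calc ∑ S ∈ Uᶜ.powerset, (-1 : R) ^ S.card
      = ∑ S ∈ Uᶜ.powerset, (((-1 : ℤ) ^ S.card : ℤ) : R) := by
        refine Finset.sum_congr rfl fun S _ => ?_
        push_cast
        rfl
    _ = _ := h1
    _ = _ := by
        by_cases hU : U = Finset.univ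
        · rw [if_pos hU, if_pos (h3.2 hU), Int.cast_one]
        · rw [if_neg hU, if_neg fun e => hU (h3.1 e), Int.cast_zero]

open Classical in
lemma sum_main {V R : Type} [Fintype V] [CommRing R] (a b d : Finset V → R) :
    ∑ S : Finset V, (-1 : R) ^ S.card * ((∑ A : Finset V, if Disjoint A S then a A else 0) *
      (∑ B : Finset V, if Disjoint B S then b B else 0) *
      (∑ D : Finset V, if Disjoint D S then d D else 0)) =
    ∑ A : Finset V, ∑ B : Finset V, ∑ D : Finset V,
      if A ∪ B ∪ D = Finset.univ then a A * b B * d D else 0 := by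
  have h1 : ∀ A B D : Finset V, (if A ∪ B ∪ D = Finset.univ then a A * b B * d D else 0) =
      ∑ S : Finset V, (if Disjoint (A ∪ B ∪ D) S then (-1 : R) ^ S.card else 0) *
        (a A * b B * d D) := by
    intro A B D
    rw [← Finset.sum_mul, sum_sign]
    split_ifs
    · rw [one_mul]
    · rw [zero_mul]
  simp only [h1]
  have h2 : ∀ A B : Finset V, ∑ D : Finset V, ∑ S : Finset V,
      (if Disjoint (A ∪ B ∪ D) S then (-1 : R) ^ S.card else 0) * (a A * b B * d D) =
      ∑ S : Finset V, ∑ D : Finset V,
      (if Disjoint (A ∪ B ∪ D) S then (-1 : R) ^ S.card else 0) * (a A * b B * d D) :=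
    fun A B => Finset.sum_comm
  simp only [h2]
  have h3 : ∀ A : Finset V, ∑ B : Finset V, ∑ S : Finset V, ∑ D : Finset V,
      (if Disjoint (A ∪ B ∪ D) S then (-1 : R) ^ S.card else 0) * (a A * b B * d D) =
      ∑ S : Finset V, ∑ B : Finset V, ∑ D : Finset V,
      (if Disjoint (A ∪ B ∪ D) S then (-1 : R) ^ S.card else 0) * (a A * b B * d D) :=
    fun A => Finset.sum_comm
  simp only [h3]
  rw [Finset.sum_comm]
  refine Finset.sum_congr rfl fun S _ => ?_
  rw [Finset.sum_mul_sum, Finset.sum_mul, Finset.mul_sum]
  refine Finset.sum_congr rfl fun A _ => ?_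
  rw [Finset.sum_mul, Finset.mul_sum]
  refine Finset.sum_congr rfl fun B _ => ?_
  rw [Finset.mul_sum, Finset.mul_sum]
  refine Finset.sum_congr rfl fun D _ => ?_
  by_cases hA : Disjoint A S
  · by_cases hB : Disjoint B S
    · by_cases hD : Disjoint D S
      · rw [if_pos hA, if_pos hB, if_pos hD, if_pos]
        rw [Finset.disjoint_union_left, Finset.disjoint_union_left]
        exact ⟨⟨hA, hB⟩, hD⟩
      · rw [if_neg hD, mul_zero, mul_zero, if_neg, zero_mul]
        rw [Finset.disjoint_union_left, Finset.disjoint_union_left]
        exact fun h => hD h.2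
    · rw [if_neg hB, mul_zero, zero_mul, mul_zero, if_neg, zero_mul]
      rw [Finset.disjoint_union_left, Finset.disjoint_union_left]
      exact fun h => hB h.1.2
  · rw [if_neg hA, zero_mul, zero_mul, mul_zero, if_neg, zero_mul]
    rw [Finset.disjoint_union_left, Finset.disjoint_union_left]
    exact fun h => hA h.1.1

end upper

open Classical in
/-- Row U -/
theorem upper_bound (V L : Type) [Fintype V] [Field L] (f : Fin 3 → ℕ → L) :
    ∃ (Γ : Type) (_ : Fintype Γ) (C : Circuit V L Γ), C.products = 2 * 2 ^ Fintype.card V ∧
      (∀ π : Perm V, ∃ τ, C.IsAut π τ) ∧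
      C.val C.out = ∑ A : Finset V, ∑ B : Finset V, ∑ D : Finset V,
        if A ∪ B ∪ D = Finset.univ then
          MvPolynomial.C (f 0 A.card * f 1 B.card * f 2 D.card) *
            (MvPolynomial.X (0, A) * MvPolynomial.X (1, B) * MvPolynomial.X (2, D)) else 0 := by
  refine ⟨Option (Finset V × Fin 5), inferInstance, upC V L f, ?_, ?_, ?_⟩
  · -- the number of products
    unfold Circuit.products
    have e : {g : Option (Finset V × Fin 5) // (upC V L f).isProd g = true} ≃
        Finset V × Fin 2 :=
      { toFun := fun g => match g with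
          | ⟨none, h⟩ => absurd h Bool.false_ne_true
          | ⟨some (S, t), _⟩ => (S, if t = 3 then 0 else 1)
        invFun := fun p => ⟨some (p.1, if p.2 = 0 then 3 else 4), by
          show decide ((if p.2 = 0 then (3 : Fin 5) else 4) = 3 ∨
            (if p.2 = 0 then (3 : Fin 5) else 4) = 4) = true
          apply decide_eq_true
          split_ifs
          · exact Or.inl rfl
          · exact Or.inr rfl⟩
        left_inv := by
          rintro ⟨_ | ⟨S, t⟩, h⟩
          · exact absurd h Bool.false_ne_true
          · have h' : t = 3 ∨ t = 4 := of_decide_eq_true h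
            rcases h' with rfl | rfl
            · rfl
            · rfl
        right_inv := by
          rintro ⟨S, t⟩
          fin_cases t
          · rfl
          · rfl }
    rw [Nat.card_congr e, Nat.card_prod, Nat.card_eq_fintype_card, Nat.card_eq_fintype_card,
      Fintype.card_finset, Fintype.card_fin, mul_comm]
  · -- the symmetries
    intro π
    refine ⟨Equiv.optionCongr (Equiv.prodCongr π.finsetCongr (Equiv.refl _)), ?_⟩
    have hτ : ∀ S t, Equiv.optionCongr (Equiv.prodCongr π.finsetCongr (Equiv.refl (Fin 5)))
        (some (S, t)) = some (S.map π.toEmbedding, t) := fun S t => rfl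
    have hτ0 : Equiv.optionCongr (Equiv.prodCongr π.finsetCongr (Equiv.refl (Fin 5))) none =
      none := rfl
    constructor
    · intro g
      rfl
    · rintro (_ | ⟨S, t⟩) k A
      · rfl
      · rw [hτ]
        show (if t.val = k.val ∧ Disjoint (A.map π.toEmbedding) (S.map π.toEmbedding) then
          f k (A.map π.toEmbedding).card else 0) =
          if t.val = k.val ∧ Disjoint A S then f k A.card else 0
        simp only [Finset.disjoint_map, Finset.card_map]
    · rintro (_ | ⟨S, t⟩) (_ | ⟨S', t'⟩)
      · rfl
      · rw [hτ, hτ0]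
        show (if t' = 4 then (-1) ^ (S'.map π.toEmbedding).card else 0) =
          if t' = 4 then (-1) ^ S'.card else 0
        rw [Finset.card_map]
      · rfl
      · rfl
    · rintro (_ | ⟨S, t⟩)
      · rfl
      · rfl
    · rintro (_ | ⟨S, t⟩) h
      · exact absurd h Bool.false_ne_true
      · have h' : t = 3 ∨ t = 4 := of_decide_eq_true h
        rcases h' with rfl | rfl
        · exact Or.inl ⟨rfl, rfl⟩
        · exact Or.inl ⟨rfl, rfl⟩
    · rfl
  · -- the polynomial
    show (upC V L f).val none = _
    rw [upC_out]
    have h1 : ∀ S : Finset V, (upC V L f).val (some (S, 4)) =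
        (∑ A : Finset V, if Disjoint A S then
          MvPolynomial.C (f 0 A.card) * MvPolynomial.X (0, A) else 0) *
        (∑ B : Finset V, if Disjoint B S then
          MvPolynomial.C (f 1 B.card) * MvPolynomial.X (1, B) else 0) *
        (∑ D : Finset V, if Disjoint D S then
          MvPolynomial.C (f 2 D.card) * MvPolynomial.X (2, D) else 0) := by
      intro S
      rw [upC_prod f S 4 (Or.inr rfl)]
      have e1 : (upC V L f).left (some (S, 4)) = some (S, 3) := rfl
      have e2 : (upC V L f).right (some (S, 4)) = some (S, 2) := rfl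
      have e3 : (upC V L f).left (some (S, 3)) = some (S, 0) := rfl
      have e4 : (upC V L f).right (some (S, 3)) = some (S, 1) := rfl
      rw [e1, e2, upC_prod f S 3 (Or.inl rfl), e3, e4, upC_form f S 0 0 rfl,
        upC_form f S 1 1 rfl, upC_form f S 2 2 rfl]
    have h2 := sum_main (V := V) (R := MvPolynomial (Fin 3 × Finset V) L)
      (fun A => MvPolynomial.C (f 0 A.card) * MvPolynomial.X (0, A))
      (fun B => MvPolynomial.C (f 1 B.card) * MvPolynomial.X (1, B))
      (fun D => MvPolynomial.C (f 2 D.card) * MvPolynomial.X (2, D))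
    have h3 : ∀ S : Finset V, MvPolynomial.C ((-1) ^ S.card) * (upC V L f).val (some (S, 4)) =
        (-1 : MvPolynomial (Fin 3 × Finset V) L) ^ S.card *
        ((∑ A : Finset V, if Disjoint A S then
          MvPolynomial.C (f 0 A.card) * MvPolynomial.X (0, A) else 0) *
        (∑ B : Finset V, if Disjoint B S then
          MvPolynomial.C (f 1 B.card) * MvPolynomial.X (1, B) else 0) *
        (∑ D : Finset V, if Disjoint D S then
          MvPolynomial.C (f 2 D.card) * MvPolynomial.X (2, D) else 0)) := by
      intro S
      rw [h1, map_pow, map_neg, map_one]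
    rw [Finset.sum_congr rfl fun S _ => h3 S, h2]
    refine Finset.sum_congr rfl fun A _ => Finset.sum_congr rfl fun B _ =>
      Finset.sum_congr rfl fun D _ => ?_
    split_ifs
    · rw [map_mul, map_mul]
      ring
    · rfl

end Pool.Agent.SAC
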