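import Mathlib
import Pool.Agent.Lib.SAC.D

/-!
# Symmetric algebraic circuits: equivariance (row E1)
-/

namespace Pool.Agent.SAC

open Equiv

section circuit
variable {V L Γ : Type} [Field L] [Fintype V] [Fintype Γ]

omit [Fintype V] in
lemma vmove_injective (π : Perm V) : Function.Injective (vmove π) := by
  rintro ⟨k, A⟩ ⟨k', A'⟩ h
  have h1 : k = k' := congrArg Prod.fst h
  have h2 : A.map π.toEmbedding = A'.map π.toEmbedding := congrArg Prod.snd h
  rw [h1, Finset.map_injective _ h2]

lemma vmove_bijective (π : Perm V) : Function.Bijective (vmove π) :=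
  Finite.injective_iff_bijective.1 (vmove_injective π)

/-- Row E1 -/
theorem Circuit.val_aut {C : Circuit V L Γ} {π : Perm V} {τ : Perm Γ} (h : C.IsAut π τ) (g : Γ) :
    C.val (τ g) = MvPolynomial.rename (vmove π) (C.val g) := by
  classical
  have key : ∀ n, ∀ g, C.rank g < n →
      C.val (τ g) = MvPolynomial.rename (vmove π) (C.val g) := by
    intro n
    induction n with
    | zero => intro g hg; exact absurd hg (Nat.not_lt_zero _)
    | succ n ih =>
      intro g hg
      rw [C.val_eq (τ g), C.val_eq g]
      simp only [map_add, map_sum, map_mul, MvPolynomial.rename_C, MvPolynomial.rename_X]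
      congr 1
      · congr 1
        · congr 1
          · rw [h.const_eq]
          · refine ((vmove_bijective π).sum_comp (fun p => MvPolynomial.C (C.var (τ g) p) *
              MvPolynomial.X p)).symm.trans (Finset.sum_congr rfl fun p _ => ?_)
            congr 2
            exact h.var_eq g p.1 p.2
        · refine (Equiv.sum_comp τ (fun k => MvPolynomial.C (C.lin (τ g) k) *
            C.val k)).symm.trans (Finset.sum_congr rfl fun k _ => ?_)
          rw [h.lin_eq]
          by_cases hk : C.lin g k = 0
          · rw [hk, map_zero, zero_mul, zero_mul]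
          · rw [ih k (lt_of_lt_of_le (C.lin_lt hk) (Nat.lt_succ_iff.1 hg))]
      · rw [h.isProd_eq]
        by_cases hp : C.isProd g = true
        · rw [if_pos hp, if_pos hp, map_mul,
            ← ih _ (lt_of_lt_of_le (C.left_lt hp) (Nat.lt_succ_iff.1 hg)),
            ← ih _ (lt_of_lt_of_le (C.right_lt hp) (Nat.lt_succ_iff.1 hg))]
          rcases h.prod_eq g hp with ⟨h1, h2⟩ | ⟨h1, h2⟩
          · rw [h1, h2]
          · rw [h1, h2, mul_comm]
        · rw [if_neg hp, if_neg hp, map_zero]
  exact key _ g (Nat.lt_succ_self _)

/-- Row E2 -/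
theorem Circuit.adj_aut {C : Circuit V L Γ} {π : Perm V} {τ : Perm Γ} (h : C.IsAut π τ)
    (g k : Γ) : C.adj (τ g) (τ k) = MvPolynomial.rename (vmove π) (C.adj g k) := by
  classical
  have key : ∀ n, ∀ k, C.rank k < n →
      C.adj (τ g) (τ k) = MvPolynomial.rename (vmove π) (C.adj g k) := by
    intro n
    induction n with
    | zero => intro k hk; exact absurd hk (Nat.not_lt_zero _)
    | succ n ih =>
      intro k hk
      rw [C.adj_eq (τ g) (τ k), C.adj_eq g k]
      simp only [map_add, map_sum, map_mul, MvPolynomial.rename_C]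
      congr 1
      · congr 1
        · by_cases e : k = g
          · rw [if_pos e, if_pos (congrArg τ e), map_one]
          · rw [if_neg e, if_neg (fun h => e (τ.injective h)), map_zero]
        · refine (Equiv.sum_comp τ (fun l => MvPolynomial.C (C.lin (τ k) l) *
            C.adj (τ g) l)).symm.trans (Finset.sum_congr rfl fun l _ => ?_)
          rw [h.lin_eq]
          by_cases hl : C.lin k l = 0
          · rw [hl, map_zero, zero_mul, zero_mul]
          · rw [ih l (lt_of_lt_of_le (C.lin_lt hl) (Nat.lt_succ_iff.1 hk))]
      · rw [h.isProd_eq]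
        by_cases hp : C.isProd k = true
        · rw [if_pos hp, if_pos hp, map_add, map_mul, map_mul, ← Circuit.val_aut h,
            ← Circuit.val_aut h,
            ← ih _ (lt_of_lt_of_le (C.left_lt hp) (Nat.lt_succ_iff.1 hk)),
            ← ih _ (lt_of_lt_of_le (C.right_lt hp) (Nat.lt_succ_iff.1 hk))]
          rcases h.prod_eq k hp with ⟨h1, h2⟩ | ⟨h1, h2⟩
          · rw [h1, h2]
          · rw [h1, h2, add_comm]
        · rw [if_neg hp, if_neg hp, map_zero]
  exact key _ k (Nat.lt_succ_self _)

omit [Fintype V] in
/-- Row E3 -/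
theorem k1_rename (π : Perm V) (p : Fin 3 × Finset V) (P : MvPolynomial (Fin 3 × Finset V) L) :
    k1 (vmove π p) (MvPolynomial.rename (vmove π) P) = k1 p P := by
  have h := MvPolynomial.coeff_rename_mapDomain (vmove π) (vmove_injective π) P
    (Finsupp.single p 1)
  rw [Finsupp.mapDomain_single] at h
  exact h

end circuit

end Pool.Agent.SAC
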