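import Mathlib
import Pool.Agent.Lib.SAC.E1

/-!
# Symmetric algebraic circuits: the decomposition given by a circuit (row E4)
-/

namespace Pool.Agent.SAC

open Equiv

section perm

/-- the six permutations of three elements -/
lemma sum_perm_three {L : Type} [AddCommMonoid L] (f : Fin 3 → Fin 3 → Fin 3 → L) :
    ∑ σ : Perm (Fin 3), f (σ 0) (σ 1) (σ 2) =
      f 0 1 2 + f 0 2 1 + f 1 0 2 + f 1 2 0 + f 2 0 1 + f 2 1 0 := by
  have h : (Finset.univ : Finset (Perm (Fin 3))) =
      {1, swap 1 2, swap 0 1, swap 0 1 * swap 1 2, swap 1 2 * swap 0 1, swap 0 2} := by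
    decide
  rw [h, Finset.sum_insert (by decide), Finset.sum_insert (by decide),
    Finset.sum_insert (by decide), Finset.sum_insert (by decide),
    Finset.sum_insert (by decide), Finset.sum_singleton]
  have e : ∀ σ : Perm (Fin 3), ∀ a b c : Fin 3, σ 0 = a → σ 1 = b → σ 2 = c →
      f (σ 0) (σ 1) (σ 2) = f a b c := by
    rintro σ a b c rfl rfl rfl
    rfl
  rw [e 1 0 1 2 (by decide) (by decide) (by decide),
    e (swap 1 2) 0 2 1 (by decide) (by decide) (by decide),
    e (swap 0 1) 1 0 2 (by decide) (by decide) (by decide),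
    e (swap 0 1 * swap 1 2) 1 2 0 (by decide) (by decide) (by decide),
    e (swap 1 2 * swap 0 1) 2 0 1 (by decide) (by decide) (by decide),
    e (swap 0 2) 2 1 0 (by decide) (by decide) (by decide)]
  simp only [add_assoc]

end perm

section circuit
variable {V L Γ : Type} [Field L] [Fintype V] [Fintype Γ]

/-- Row E4: the decomposition given by a circuit -/
theorem Circuit.decomp (C : Circuit V L Γ) (A B D : Finset V) :
    C.coeff A B D = ∑ i : {h : Γ // C.isProd h = true} × Perm (Fin 3),
      k1 (0, A) (C.form i.1 (i.2 0)) * k1 (1, B) (C.form i.1 (i.2 1)) *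
        k1 (2, D) (C.form i.1 (i.2 2)) := by
  have h1 : C.coeff A B D = k3 (0, A) (1, B) (2, D) (C.val C.out) := rfl
  have hpq : ((0 : Fin 3), A) ≠ ((1 : Fin 3), B) := fun h => by
    simpa using congrArg Prod.fst h
  have hpr : ((0 : Fin 3), A) ≠ ((2 : Fin 3), D) := fun h => by
    simpa using congrArg Prod.fst h
  have hqr : ((1 : Fin 3), B) ≠ ((2 : Fin 3), D) := fun h => by
    simpa using congrArg Prod.fst h
  rw [h1, C.k3_val hpq hpr hqr, Fintype.sum_prod_type]
  refine Finset.sum_congr rfl fun h _ => ?_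
  have h2 := sum_perm_three (fun a b c => k1 (0, A) (C.form h a) * k1 (1, B) (C.form h b) *
    k1 (2, D) (C.form h c))
  beta_reduce at h2
  rw [h2]
  have f0 : C.form h 0 = C.val (C.left h) := by
    unfold Circuit.form
    rw [if_pos rfl]
  have f1 : C.form h 1 = C.val (C.right h) := by
    unfold Circuit.form
    rw [if_neg (by decide), if_pos rfl]
  have f2 : C.form h 2 = C.adj h C.out := by
    unfold Circuit.form
    rw [if_neg (by decide), if_neg (by decide)]
  rw [f0, f1, f2]
  ring

lemma Circuit.form_aut {C : Circuit V L Γ} {π : Perm V} {τ : Perm Γ} (h : C.IsAut π τ)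
    (g : Γ) (hg : C.isProd g = true) : ∃ s : Perm (Fin 3), ∀ t,
      C.form (τ g) (s t) = MvPolynomial.rename (vmove π) (C.form g t) := by
  have f0 : ∀ g, C.form g 0 = C.val (C.left g) := by
    intro g
    unfold Circuit.form
    rw [if_pos rfl]
  have f1 : ∀ g, C.form g 1 = C.val (C.right g) := by
    intro g
    unfold Circuit.form
    rw [if_neg (by decide), if_pos rfl]
  have f2 : ∀ g, C.form g 2 = C.adj g C.out := by
    intro g
    unfold Circuit.form
    rw [if_neg (by decide), if_neg (by decide)]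
  have h2 : C.form (τ g) 2 = MvPolynomial.rename (vmove π) (C.form g 2) := by
    rw [f2, f2, ← Circuit.adj_aut h, h.out_eq]
  rcases h.prod_eq g hg with ⟨hl, hr⟩ | ⟨hl, hr⟩
  · refine ⟨1, fun t => ?_⟩
    fin_cases t
    · show C.form (τ g) 0 = MvPolynomial.rename (vmove π) (C.form g 0)
      rw [f0, f0, hl, Circuit.val_aut h]
    · show C.form (τ g) 1 = MvPolynomial.rename (vmove π) (C.form g 1)
      rw [f1, f1, hr, Circuit.val_aut h]
    · exact h2
  · refine ⟨swap 0 1, fun t => ?_⟩
    fin_cases t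
    · show C.form (τ g) 1 = MvPolynomial.rename (vmove π) (C.form g 0)
      rw [f1, f0, hr, Circuit.val_aut h]
    · show C.form (τ g) 0 = MvPolynomial.rename (vmove π) (C.form g 1)
      rw [f0, f1, hl, Circuit.val_aut h]
    · exact h2

/-- Row E5: its invariance -/
theorem Circuit.decomp_inv {C : Circuit V L Γ} {π : Perm V} {τ : Perm Γ} (h : C.IsAut π τ) :
    ∃ σ : Perm ({h : Γ // C.isProd h = true} × Perm (Fin 3)), ∀ i (k : Fin 3) (A : Finset V),
      k1 (k, A.map π.toEmbedding) (C.form (σ i).1 ((σ i).2 k)) = k1 (k, A) (C.form i.1 (i.2 k)) := by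
  choose s hs using fun g : {g : Γ // C.isProd g = true} => Circuit.form_aut h g.1 g.2
  refine ⟨Equiv.prodShear
    (τ.subtypeEquiv (fun g => by rw [h.isProd_eq]) :
      {g : Γ // C.isProd g = true} ≃ {g : Γ // C.isProd g = true})
    (fun g => Equiv.mulLeft (s g)), ?_⟩
  rintro ⟨g, ρ⟩ k A
  show k1 (k, A.map π.toEmbedding) (C.form (τ g) (s g (ρ k))) = k1 (k, A) (C.form g (ρ k))
  rw [hs g (ρ k)]
  exact k1_rename π (k, A) _

end circuit

end Pool.Agent.SAC
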