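import Mathlib
import Pool.Agent.Lib.SAC.Base

/-!
# The alternating group on a set of points
-/

namespace Pool.Agent.SAC

open Equiv Equiv.Perm

variable {α : Type} [Fintype α] [DecidableEq α]

lemma altOn_eq (Ω : Finset α) :
    altOn Ω = (alternatingGroup {x // x ∈ Ω}).map
      (ofSubtype : Perm {x // x ∈ Ω} →* Perm α) := by
  ext a
  rw [mem_altOn, Subgroup.mem_map]
  constructor
  · rintro ⟨h1, h2⟩
    have h3 : ∀ x, a x ∈ Ω ↔ x ∈ Ω := by
      intro x
      constructor
      · intro hx
        by_contra h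
        exact h (h2 x h ▸ hx)
      · intro hx
        by_contra h
        exact h ((a.injective (h2 _ h)).symm ▸ hx)
    have h4 : ofSubtype (a.subtypePerm h3) = a :=
      ofSubtype_subtypePerm h3 fun x hx => by
        by_contra h
        exact hx (h2 x h)
    refine ⟨a.subtypePerm h3, ?_, h4⟩
    rw [mem_alternatingGroup, ← sign_ofSubtype, h4]
    exact h1
  · rintro ⟨b, hb, rfl⟩
    refine ⟨?_, fun x hx => ofSubtype_apply_of_not_mem b hx⟩
    rw [sign_ofSubtype]
    exact mem_alternatingGroup.1 hb

/-- the alternating group of `Ω` is isomorphic to `altOn Ω` -/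
noncomputable def altOnEquiv (Ω : Finset α) : alternatingGroup {x // x ∈ Ω} ≃* altOn Ω :=
  ((alternatingGroup {x // x ∈ Ω}).equivMapOfInjective _ ofSubtype_injective).trans
    (MulEquiv.subgroupCongr (altOn_eq Ω).symm)

omit [Fintype α] [DecidableEq α] in
lemma card_coe_eq (Ω : Finset α) : Nat.card {x // x ∈ Ω} = Ω.card := by
  rw [Nat.card_eq_fintype_card, Fintype.card_coe]

/-- Row A1 -/
theorem altOn_simple (Ω : Finset α) (h : 5 ≤ Ω.card) : IsSimpleGroup (altOn Ω) := by
  have : IsSimpleGroup (alternatingGroup {x // x ∈ Ω}) :=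
    alternatingGroup.isSimpleGroup (by rw [card_coe_eq]; exact h)
  exact (altOnEquiv Ω).symm.isSimpleGroup

end Pool.Agent.SAC
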