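import Mathlib
import Pool.Agent.Lib.SAC.A1

/-!
# Centre and order of the alternating group on a set of points
-/

namespace Pool.Agent.SAC

open Equiv Equiv.Perm

variable {α : Type} [Fintype α] [DecidableEq α]

/-- Row A2 -/
theorem altOn_center (Ω : Finset α) (h : 4 ≤ Ω.card) :
    ∀ c ∈ altOn Ω, (∀ d ∈ altOn Ω, c * d = d * c) → c = 1 := by
  intro c hc hd
  have h1 : (altOnEquiv Ω).symm ⟨c, hc⟩ ∈ Subgroup.center (alternatingGroup {x // x ∈ Ω}) := by
    rw [Subgroup.mem_center_iff]
    intro g
    apply (altOnEquiv Ω).injective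
    rw [map_mul, map_mul, MulEquiv.apply_symm_apply]
    apply Subtype.ext
    exact (hd _ (altOnEquiv Ω g).2).symm
  rw [alternatingGroup.center_eq_bot (by rw [card_coe_eq]; exact h), Subgroup.mem_bot] at h1
  have h2 := congrArg (altOnEquiv Ω) h1
  rw [MulEquiv.apply_symm_apply, map_one] at h2
  exact congrArg Subtype.val h2

/-- Row A3 -/
theorem altOn_card (Ω : Finset α) (h : 2 ≤ Ω.card) :
    2 * Nat.card (altOn Ω) = Ω.card.factorial := by
  have : Nontrivial {x // x ∈ Ω} := by
    rw [← Finite.one_lt_card_iff_nontrivial, card_coe_eq]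
    omega
  rw [← Nat.card_congr (altOnEquiv Ω).toEquiv, two_mul_nat_card_alternatingGroup, Nat.card_perm,
    card_coe_eq]

end Pool.Agent.SAC
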