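import Mathlib
import Pool.Agent.Lib.SAC.Base

/-!
# Representatives of the pairs of a matching
-/

namespace Pool.Agent.SAC

/-- Row F0 -/
theorem exists_reps {V : Type} [Fintype V] [DecidableEq V] (μ : V → V) (hμ : ∀ p, μ (μ p) = p)
    (hf : ∀ p, μ p ≠ p) : ∃ E : Finset V, ∀ p, (p ∈ E ↔ μ p ∉ E) := by
  classical
  let e := Fintype.equivFin V
  refine ⟨Finset.univ.filter (fun p => e p < e (μ p)), fun p => ?_⟩
  rw [Finset.mem_filter, Finset.mem_filter, hμ]
  simp only [Finset.mem_univ, true_and, not_lt]
  constructor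
  · exact fun h => h.le
  · intro h
    rcases h.lt_or_eq with h | h
    · exact h
    · exact absurd (e.injective h).symm (hf p)

end Pool.Agent.SAC
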