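import Mathlib
import Pool.Agent.Lib.SAC.Base

/-!
# Symmetric algebraic circuits, row F1
-/

namespace Pool.Agent.SAC

section functional
variable {V : Type} [Fintype V] [DecidableEq V]

namespace F1

lemma no_point {c : V → Fin 3} {μ : V → V} {E : Finset V} (hμ : ∀ p, μ (μ p) = p)
    (hE : ∀ p, (p ∈ E ↔ μ p ∉ E)) {k l : Fin 3} {S T : Finset V}
    (hS : S ⊆ E.filter (fun p => c p = k)) (hT : T ⊆ E.filter (fun p => c p = l))
    (h : Disjoint (tog c μ k S) (tog c μ l T)) {s : V} (hs : s ∈ S) (hl : c (μ s) = l) :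
    False := by
  have hsE : s ∈ E := (Finset.mem_filter.1 (hS hs)).1
  have h1 : μ s ∈ tog c μ k S := Finset.mem_union_right _ (Finset.mem_image_of_mem _ hs)
  have h2 : μ s ∈ tog c μ l T := by
    refine Finset.mem_union_left _ (Finset.mem_sdiff.2
      ⟨Finset.mem_filter.2 ⟨Finset.mem_univ _, hl⟩, fun h => ?_⟩)
    exact (hE s).1 hsE (Finset.mem_filter.1 (hT h)).1
  exact Finset.disjoint_left.1 h h1 h2

end F1

/-- Row F1 -/
theorem tog_partition {c : V → Fin 3} {μ : V → V} {E : Finset V} (hμ : ∀ p, μ (μ p) = p)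
    (hc : ∀ p, c (μ p) ≠ c p) (hE : ∀ p, (p ∈ E ↔ μ p ∉ E)) {S₀ S₁ S₂ : Finset V}
    (h₀ : S₀ ⊆ E.filter (fun p => c p = 0)) (h₁ : S₁ ⊆ E.filter (fun p => c p = 1))
    (h₂ : S₂ ⊆ E.filter (fun p => c p = 2))
    (h : IsPartition (tog c μ 0 S₀) (tog c μ 1 S₁) (tog c μ 2 S₂)) :
    S₀ = ∅ ∧ S₁ = ∅ ∧ S₂ = ∅ := by
  obtain ⟨h01, h02, h12, -⟩ := h
  have hcol : ∀ k : Fin 3, ∀ s, c s = k → c (μ s) ≠ k := fun k s hs h => hc s (h.trans hs.symm)
  refine ⟨Finset.eq_empty_of_forall_notMem fun s hs => ?_,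
    Finset.eq_empty_of_forall_notMem fun s hs => ?_,
    Finset.eq_empty_of_forall_notMem fun s hs => ?_⟩
  · have h0 := hcol 0 s (Finset.mem_filter.1 (h₀ hs)).2
    rcases (show c (μ s) = 1 ∨ c (μ s) = 2 by
      generalize c (μ s) = t at h0; fin_cases t <;> simp_all) with h | h
    · exact F1.no_point hμ hE h₀ h₁ h01 hs h
    · exact F1.no_point hμ hE h₀ h₂ h02 hs h
  · have h0 := hcol 1 s (Finset.mem_filter.1 (h₁ hs)).2
    rcases (show c (μ s) = 0 ∨ c (μ s) = 2 by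
      generalize c (μ s) = t at h0; fin_cases t <;> simp_all) with h | h
    · exact F1.no_point hμ hE h₁ h₀ h01.symm hs h
    · exact F1.no_point hμ hE h₁ h₂ h12 hs h
  · have h0 := hcol 2 s (Finset.mem_filter.1 (h₂ hs)).2
    rcases (show c (μ s) = 0 ∨ c (μ s) = 1 by
      generalize c (μ s) = t at h0; fin_cases t <;> simp_all) with h | h
    · exact F1.no_point hμ hE h₂ h₀ h02.symm hs h
    · exact F1.no_point hμ hE h₂ h₁ h12.symm hs h

end functional

end Pool.Agent.SAC
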