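import Mathlib
import Pool.Agent.Lib.SAC.F1

/-!
# Symmetric algebraic circuits, row F2

The functional does not vanish on a tensor whose coefficients at triples of sets which are no
partitions have smaller valuation than its coefficient at the partition into the three classes.
-/

namespace Pool.Agent.SAC

section functional
variable {V : Type} [Fintype V] [DecidableEq V]

namespace F2

lemma tog_empty (c : V → Fin 3) (μ : V → V) (k : Fin 3) : tog c μ k ∅ = cl c k := by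
  unfold tog
  rw [Finset.sdiff_empty, Finset.image_empty, Finset.union_empty]

end F2

/-- Row F2 -/
theorem phi_ne_zero {L : Type} [Field L] {Γ₀ : Type} [LinearOrderedCommGroupWithZero Γ₀]
    (v : Valuation L Γ₀) (T : Finset V → Finset V → Finset V → L)
    {c : V → Fin 3} {μ : V → V} {E : Finset V} (hμ : ∀ p, μ (μ p) = p)
    (hc : ∀ p, c (μ p) ≠ c p) (hE : ∀ p, (p ∈ E ↔ μ p ∉ E))
    (h0 : T (cl c 0) (cl c 1) (cl c 2) ≠ 0)
    (hT : ∀ A B D, ¬ IsPartition A B D → v (T A B D) < v (T (cl c 0) (cl c 1) (cl c 2)))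
    {ι : Type} [Fintype ι] (x : Fin 3 → ι → Finset V → L)
    (hx : ∀ A B D, T A B D = ∑ i, x 0 i A * x 1 i B * x 2 i D) :
    ∑ i, phi c μ E 0 (x 0 i) * phi c μ E 1 (x 1 i) * phi c μ E 2 (x 2 i) ≠ 0 := by
  classical
  set P : Fin 3 → Finset (Finset V) := fun k => (E.filter (fun p => c p = k)).powerset with hP
  -- the sum as a signed sum of coefficients of the tensor
  have hsum : ∑ i, phi c μ E 0 (x 0 i) * phi c μ E 1 (x 1 i) * phi c μ E 2 (x 2 i) =
      ∑ s ∈ (P 0 ×ˢ P 1) ×ˢ P 2, (-1 : L) ^ (s.1.1.card + s.1.2.card + s.2.card) *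
        T (tog c μ 0 s.1.1) (tog c μ 1 s.1.2) (tog c μ 2 s.2) := by
    have h1 : ∀ i, phi c μ E 0 (x 0 i) * phi c μ E 1 (x 1 i) * phi c μ E 2 (x 2 i) =
        ∑ s ∈ (P 0 ×ˢ P 1) ×ˢ P 2, (-1 : L) ^ (s.1.1.card + s.1.2.card + s.2.card) *
          (x 0 i (tog c μ 0 s.1.1) * x 1 i (tog c μ 1 s.1.2) * x 2 i (tog c μ 2 s.2)) := by
      intro i
      unfold phi
      rw [Finset.sum_mul_sum, ← Finset.sum_product', Finset.sum_mul_sum, ← Finset.sum_product']
      refine Finset.sum_congr rfl (fun s _ => ?_)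
      rw [pow_add, pow_add]
      ring
    rw [Finset.sum_congr rfl (fun i _ => h1 i), Finset.sum_comm]
    refine Finset.sum_congr rfl (fun s _ => ?_)
    rw [← Finset.mul_sum, ← hx]
  rw [hsum]
  have hmem : ((∅, ∅), ∅) ∈ (P 0 ×ˢ P 1) ×ˢ P 2 := by
    simp [hP]
  rw [← Finset.add_sum_erase _ _ hmem]
  simp only [F2.tog_empty, Finset.card_empty, add_zero, pow_zero, one_mul]
  intro hz
  have hvT : v (T (cl c 0) (cl c 1) (cl c 2)) ≠ 0 := (Valuation.ne_zero_iff v).2 h0
  have hlt : v (∑ s ∈ ((P 0 ×ˢ P 1) ×ˢ P 2).erase ((∅, ∅), ∅),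
      (-1 : L) ^ (s.1.1.card + s.1.2.card + s.2.card) *
        T (tog c μ 0 s.1.1) (tog c μ 1 s.1.2) (tog c μ 2 s.2)) <
      v (T (cl c 0) (cl c 1) (cl c 2)) := by
    refine Valuation.map_sum_lt v hvT (fun s hs => ?_)
    rw [map_mul, map_pow, Valuation.map_neg, map_one, one_pow, one_mul]
    refine hT _ _ _ (fun hpart => ?_)
    obtain ⟨hs1, hs2⟩ := Finset.mem_erase.1 hs
    rw [Finset.mem_product, Finset.mem_product] at hs2
    obtain ⟨⟨ha, hb⟩, hd⟩ := hs2
    obtain ⟨e0, e1, e2⟩ := tog_partition hμ hc hE (Finset.mem_powerset.1 ha)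
      (Finset.mem_powerset.1 hb) (Finset.mem_powerset.1 hd) hpart
    exact hs1 (Prod.ext (Prod.ext e0 e1) e2)
  rw [add_eq_zero_iff_eq_neg] at hz
  rw [hz, Valuation.map_neg] at hlt
  exact lt_irrefl _ hlt

end functional

end Pool.Agent.SAC
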