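import Mathlib
import Pool.Agent.Lib.SAC.Base

/-!
# The index of a subgroup of a power
-/

namespace Pool.Agent.SAC

variable {P : Type} [Group P] {m : ℕ}

lemma card_map_ker {G Q : Type} [Group G] [Group Q] [Finite G] (A : Subgroup G) (f : G →* Q) :
    Nat.card A = Nat.card (A.map f) * Nat.card (A ⊓ f.ker : Subgroup G) := by
  have h1 := (f.comp A.subtype).ker.index_mul_card
  rw [Subgroup.index_ker] at h1
  have h2 : (f.comp A.subtype).range = A.map f := by
    rw [MonoidHom.range_comp, Subgroup.range_subtype]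
  have h3 : (f.comp A.subtype).ker.map A.subtype = A ⊓ f.ker := by
    ext x
    rw [Subgroup.mem_map, Subgroup.mem_inf]
    constructor
    · rintro ⟨y, hy, rfl⟩
      exact ⟨y.2, hy⟩
    · rintro ⟨hx, hx'⟩
      exact ⟨⟨x, hx⟩, hx', rfl⟩
  have h4 : Nat.card ((f.comp A.subtype).ker.map A.subtype) = Nat.card (f.comp A.subtype).ker :=
    (Nat.card_congr ((f.comp A.subtype).ker.equivMapOfInjective A.subtype
      A.subtype_injective).toEquiv).symm
  rw [h2] at h1
  rw [← h1, ← h4, h3]

/-- the families which are trivial on the first `n` blocks -/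
def lowN (P : Type) [Group P] (m n : ℕ) : Subgroup (Fin m → P) where
  carrier := {h | ∀ i : Fin m, i.val < n → h i = 1}
  one_mem' := fun _ _ => rfl
  mul_mem' := fun {a b} ha hb i hi => by rw [Pi.mul_apply, ha i hi, hb i hi, one_mul]
  inv_mem' := fun {a} ha i hi => by rw [Pi.inv_apply, ha i hi, inv_one]

lemma card_prod_aux [Finite P] (K : Subgroup (Fin m → P)) : ∀ n ≤ m,
    Nat.card K = (∏ j ∈ Finset.univ.filter (fun j : Fin m => j.val < n), Nat.card (top K j)) *
      Nat.card (K ⊓ lowN P m n : Subgroup (Fin m → P)) := by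
  intro n
  induction n with
  | zero =>
    intro _
    have h1 : K ⊓ lowN P m 0 = K := by
      rw [inf_eq_left]
      intro x _ i hi
      exact absurd hi (Nat.not_lt_zero _)
    have h2 : (Finset.univ.filter (fun j : Fin m => j.val < 0)) = ∅ := by
      apply Finset.filter_false_of_mem
      intro j _
      exact Nat.not_lt_zero _
    rw [h1, h2, Finset.prod_empty, one_mul]
  | succ n ih =>
    intro hn
    rw [ih (by omega)]
    have h1 : (Finset.univ.filter (fun j : Fin m => j.val < n + 1)) =
        insert (⟨n, hn⟩ : Fin m) (Finset.univ.filter (fun j : Fin m => j.val < n)) := by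
      ext j
      rw [Finset.mem_filter, Finset.mem_insert, Finset.mem_filter, Fin.ext_iff]
      simp only [Finset.mem_univ, true_and]
      omega
    have h2 : (⟨n, hn⟩ : Fin m) ∉ (Finset.univ.filter (fun j : Fin m => j.val < n)) := by
      rw [Finset.mem_filter]
      simp
    rw [h1, Finset.prod_insert h2]
    have h3 := card_map_ker (K ⊓ lowN P m n) (Pi.evalMonoidHom (fun _ : Fin m => P) ⟨n, hn⟩)
    have h4 : (K ⊓ lowN P m n) = K ⊓ low P (⟨n, hn⟩ : Fin m) := rfl
    have h5 : (K ⊓ lowN P m n) ⊓ (Pi.evalMonoidHom (fun _ : Fin m => P) ⟨n, hn⟩).ker =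
        K ⊓ lowN P m (n + 1) := by
      rw [inf_assoc]
      congr 1
      ext x
      rw [Subgroup.mem_inf]
      constructor
      · rintro ⟨ha, hb⟩ i hi
        rcases Nat.lt_succ_iff_lt_or_eq.1 hi with h | h
        · exact ha i h
        · have : i = ⟨n, hn⟩ := Fin.ext h
          rw [this]
          exact hb
      · intro h
        exact ⟨fun i hi => h i (by omega), h _ (Nat.lt_succ_self n)⟩
    rw [h5] at h3
    rw [h3]
    have h6 : (K ⊓ lowN P m n).map (Pi.evalMonoidHom (fun _ : Fin m => P) ⟨n, hn⟩) =
        top K ⟨n, hn⟩ := rfl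
    rw [h6]
    ring

/-- Row G1 -/
theorem chain [Finite P] (K : Subgroup (Fin m → P)) : ∏ j, (top K j).index = K.index := by
  have h1 := card_prod_aux K m le_rfl
  have h2 : (Finset.univ.filter (fun j : Fin m => j.val < m)) = Finset.univ := by
    apply Finset.filter_true_of_mem
    intro j _
    exact j.2
  have h3 : K ⊓ lowN P m m = ⊥ := by
    rw [eq_bot_iff]
    intro x hx
    rw [Subgroup.mem_bot]
    funext i
    exact hx.2 i i.2
  rw [h2, h3, Subgroup.card_bot, mul_one] at h1
  have h4 : K.index * Nat.card K = Nat.card P ^ m := by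
    rw [Subgroup.index_mul_card, Nat.card_pi, Finset.prod_const, Finset.card_univ,
      Fintype.card_fin]
  have h5 : (∏ j, (top K j).index) * Nat.card K = Nat.card P ^ m := by
    rw [h1, ← Finset.prod_mul_distrib]
    rw [Finset.prod_congr rfl (g := fun _ => Nat.card P) (fun j _ => (top K j).index_mul_card),
      Finset.prod_const, Finset.card_univ, Fintype.card_fin]
  have h6 : 0 < Nat.card K := Nat.card_pos
  exact Nat.eq_of_mul_eq_mul_right h6 (h5.trans h4.symm)

end Pool.Agent.SAC
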