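import Mathlib
import Pool.Agent.Lib.SAC.Base

/-!
# Partners
-/

namespace Pool.Agent.SAC

variable {P : Type} [Group P] {m : ℕ}

/-- the values at `j` of the elements of `K` which are trivial at the other blocks before `n` -/
def valSub (K : Subgroup (Fin m → P)) (S : Subgroup P) (j : Fin m) (n : ℕ) : Subgroup S where
  carrier := {a | ∃ h ∈ K, h j = (a : P) ∧ ∀ k : Fin m, k.val < n → k ≠ j → h k = 1}
  one_mem' := ⟨1, K.one_mem, rfl, fun _ _ _ => rfl⟩
  mul_mem' := by
    rintro a b ⟨h, h1, h2, h3⟩ ⟨h', h1', h2', h3'⟩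
    refine ⟨h * h', K.mul_mem h1 h1', ?_, ?_⟩
    · rw [Pi.mul_apply, h2, h2']
      rfl
    · intro k hk hkj
      rw [Pi.mul_apply, h3 k hk hkj, h3' k hk hkj, one_mul]
  inv_mem' := by
    rintro a ⟨h, h1, h2, h3⟩
    refine ⟨h⁻¹, K.inv_mem h1, ?_, ?_⟩
    · rw [Pi.inv_apply, h2]
      rfl
    · intro k hk hkj
      rw [Pi.inv_apply, h3 k hk hkj, inv_one]

lemma valSub_normal (K : Subgroup (Fin m → P)) (S : Subgroup P) (j : Fin m) (hS : S ≤ top K j)
    {n : ℕ} : (valSub K S j n).Normal := by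
  constructor
  rintro a ⟨h, h1, h2, h3⟩ g
  obtain ⟨u, hu, -, hu2⟩ := mem_top.1 (hS g.2)
  refine ⟨u * h * u⁻¹, K.mul_mem (K.mul_mem hu h1) (K.inv_mem hu), ?_, ?_⟩
  · rw [Pi.mul_apply, Pi.mul_apply, Pi.inv_apply, h2, hu2]
    rfl
  · intro k hk hkj
    rw [Pi.mul_apply, Pi.mul_apply, Pi.inv_apply, h3 k hk hkj, mul_one, mul_inv_cancel]

/-- Row G2: if `S` is simple and contained in `top K j`, then either `S`, placed on the block `j`,
is contained in `K`, or `j` has a partner. -/
theorem partner (K : Subgroup (Fin m → P)) (S : Subgroup P) (j : Fin m) (hS : S ≤ top K j)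
    (hs : IsSimpleGroup S) : (∀ a ∈ S, Pi.mulSingle j a ∈ K) ∨ ∃ i, Partner K S j i := by
  classical
  have hbt : ∀ n, valSub K S j n = ⊥ ∨ valSub K S j n = ⊤ := fun n =>
    (valSub_normal K S j hS).eq_bot_or_eq_top
  have hne : (⊤ : Subgroup S) ≠ ⊥ := by
    have := hs.toNontrivial
    exact top_ne_bot
  have hlow : valSub K S j (j.val + 1) = ⊤ := by
    rw [eq_top_iff]
    intro a _
    obtain ⟨u, hu, hu1, hu2⟩ := mem_top.1 (hS a.2)
    refine ⟨u, hu, hu2, ?_⟩
    intro k hk hkj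
    apply hu1
    rw [Fin.lt_def]
    have : k.val ≠ j.val := fun h => hkj (Fin.ext h)
    omega
  rcases hbt m with hm | hm
  · right
    have hex : ∃ n, j.val + 1 ≤ n ∧ valSub K S j n = ⊥ := ⟨m, j.2, hm⟩
    set n := Nat.find hex with hn
    obtain ⟨hn1, hn2⟩ := Nat.find_spec hex
    have hnm : n ≤ m := Nat.find_min' hex ⟨j.2, hm⟩
    rw [← hn] at hn1 hn2
    have hn3 : n ≠ j.val + 1 := by
      intro h
      rw [h, hlow] at hn2
      exact hne hn2
    obtain ⟨i, hi⟩ : ∃ i, n = i + 1 := ⟨n - 1, by omega⟩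
    have hi1 : valSub K S j i = ⊤ := by
      rcases hbt i with h | h
      · exfalso
        have := Nat.find_min' hex ⟨by omega, h⟩
        omega
      · exact h
    refine ⟨⟨i, by omega⟩, ⟨?_, ?_, ?_⟩⟩
    · rw [Fin.lt_def]
      show j.val < i
      omega
    · intro a ha
      have : (⟨a, ha⟩ : S) ∈ valSub K S j i := by
        rw [hi1]
        exact Subgroup.mem_top _
      obtain ⟨h, h1, h2, h3⟩ := this
      exact ⟨h, h1, h2, fun k hk hkj => h3 k hk hkj⟩
    · intro h hK hhS hh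
      have : (⟨h j, hhS⟩ : S) ∈ valSub K S j n := by
        refine ⟨h, hK, rfl, ?_⟩
        intro k hk hkj
        apply hh k _ hkj
        rw [Fin.le_def]
        show k.val ≤ i
        omega
      rw [hn2, Subgroup.mem_bot] at this
      exact congrArg Subtype.val this
  · left
    intro a ha
    have : (⟨a, ha⟩ : S) ∈ valSub K S j m := by
      rw [hm]
      exact Subgroup.mem_top _
    obtain ⟨h, h1, h2, h3⟩ := this
    have e : Pi.mulSingle j a = h := by
      funext k
      by_cases hk : k = j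
      · subst hk
        rw [Pi.mulSingle_eq_same, h2]
      · rw [Pi.mulSingle_eq_of_ne hk, h3 k k.2 hk]
    rw [e]
    exact h1

end Pool.Agent.SAC
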