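import Mathlib
import Pool.Agent.Lib.SAC.Base

/-!
# The index of `top K i` is large if many blocks have the partner `i`
-/

namespace Pool.Agent.SAC

variable {P : Type} [Group P] {m : ℕ}

lemma exists_lift (K : Subgroup (Fin m → P)) (i : Fin m) (J : Finset (Fin m))
    (S : Fin m → Subgroup P) (hp : ∀ j ∈ J, Partner K (S j) j i) (a : Fin m → P)
    (ha : ∀ j ∈ J, a j ∈ S j) :
    ∃ h ∈ K, (∀ j ∈ J, h j = a j) ∧ ∀ k < i, k ∉ J → h k = 1 := by
  classical
  induction J using Finset.induction_on with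
  | empty => exact ⟨1, K.one_mem, fun j hj => absurd hj (Finset.notMem_empty _), fun _ _ _ => rfl⟩
  | insert j₀ J hj₀ ih =>
    obtain ⟨h, h1, h2, h3⟩ := ih (fun j hj => hp j (Finset.mem_insert_of_mem hj))
      (fun j hj => ha j (Finset.mem_insert_of_mem hj))
    have hp0 := hp j₀ (Finset.mem_insert_self _ _)
    obtain ⟨h', h1', h2', h3'⟩ := hp0.all (a j₀) (ha j₀ (Finset.mem_insert_self _ _))
    refine ⟨h * h', K.mul_mem h1 h1', ?_, ?_⟩
    · intro j hj
      rw [Pi.mul_apply]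
      rcases Finset.mem_insert.1 hj with rfl | hj'
      · rw [h2', h3 j hp0.lt hj₀, one_mul]
      · have hne : j ≠ j₀ := fun e => hj₀ (e ▸ hj')
        rw [h2 j hj', h3' j (hp j hj).lt hne, mul_one]
    · intro k hk hkJ
      rw [Finset.mem_insert, not_or] at hkJ
      rw [Pi.mul_apply, h3 k hk hkJ.2, h3' k hk hkJ.1, one_mul]

/-- Row G3: the index of `top K i` is large if many `j` have the partner `i` -/
theorem inject [Finite P] (K : Subgroup (Fin m → P)) (i : Fin m) (J : Finset (Fin m))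
    (S : Fin m → Subgroup P) (hp : ∀ j ∈ J, Partner K (S j) j i)
    (hc : ∀ j ∈ J, ∀ c ∈ S j, (∀ d ∈ S j, c * d = d * c) → c = 1) :
    ∏ j ∈ J, Nat.card (S j) ≤ (top K i).index := by
  classical
  let A : Type := (j : {j // j ∈ J}) → S j
  have hcard : Nat.card A = ∏ j ∈ J, Nat.card (S j) := by
    show Nat.card ((j : {j // j ∈ J}) → S j) = _
    rw [Nat.card_pi]
    exact Finset.prod_coe_sort J (fun j => Nat.card (S j))
  rw [← hcard]
  have hex : ∀ a : A, ∃ h ∈ K, (∀ (j : Fin m) (hj : j ∈ J), h j = (a ⟨j, hj⟩ : P)) ∧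
      ∀ k < i, k ∉ J → h k = 1 := by
    intro a
    obtain ⟨h, h1, h2, h3⟩ := exists_lift K i J S hp
      (fun j => if hj : j ∈ J then (a ⟨j, hj⟩ : P) else 1) (by
        intro j hj
        rw [dif_pos hj]
        exact (a ⟨j, hj⟩).2)
    refine ⟨h, h1, ?_, h3⟩
    intro j hj
    rw [h2 j hj, dif_pos hj]
  choose h hK hJ hlow using hex
  have hidx : (top K i).index = Nat.card (P ⧸ top K i) := rfl
  rw [hidx]
  apply Nat.card_le_card_of_injective (fun a : A => (h a i : P ⧸ top K i))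
  intro a a' he
  have h1 : (h a i)⁻¹ * h a' i ∈ top K i := QuotientGroup.eq.1 he
  obtain ⟨u, hu, hu1, hu2⟩ := mem_top.1 h1
  set w := (h a)⁻¹ * h a' * u⁻¹ with hw
  have hwK : w ∈ K := K.mul_mem (K.mul_mem (K.inv_mem (hK a)) (hK a')) (K.inv_mem hu)
  have hwv : ∀ k, w k = (h a k)⁻¹ * h a' k * (u k)⁻¹ := fun k => rfl
  have hw1 : ∀ k < i, k ∉ J → w k = 1 := by
    intro k hk hkJ
    rw [hwv, hlow a k hk hkJ, hlow a' k hk hkJ, hu1 k hk]
    group
  have hw2 : w i = 1 := by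
    rw [hwv, hu2]
    group
  have hw3 : ∀ (j : Fin m) (hj : j ∈ J), w j = (a ⟨j, hj⟩ : P)⁻¹ * (a' ⟨j, hj⟩ : P) := by
    intro j hj
    rw [hwv, hJ a j hj, hJ a' j hj, hu1 j (hp j hj).lt]
    group
  have hw4 : ∀ (j : Fin m) (hj : j ∈ J), w j = 1 := by
    intro j hj
    have hS : w j ∈ S j := by
      rw [hw3 j hj]
      exact (S j).mul_mem ((S j).inv_mem (a ⟨j, hj⟩).2) (a' ⟨j, hj⟩).2
    apply hc j hj _ hS
    intro d hd
    obtain ⟨h', h1', h2', h3'⟩ := (hp j hj).all d hd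
    have hz : (w * h' * w⁻¹ * h'⁻¹) j = 1 := by
      apply (hp j hj).none
      · exact K.mul_mem (K.mul_mem (K.mul_mem hwK h1') (K.inv_mem hwK)) (K.inv_mem h1')
      · show w j * h' j * (w j)⁻¹ * (h' j)⁻¹ ∈ S j
        rw [h2']
        exact (S j).mul_mem ((S j).mul_mem ((S j).mul_mem hS hd) ((S j).inv_mem hS))
          ((S j).inv_mem hd)
      · intro k hk hkj
        show w k * h' k * (w k)⁻¹ * (h' k)⁻¹ = 1
        rcases lt_or_eq_of_le hk with hk | rfl
        · rw [h3' k hk hkj]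
          group
        · rw [hw2]
          group
    have hz' : w j * h' j * (w j)⁻¹ * (h' j)⁻¹ = 1 := hz
    rw [h2'] at hz'
    have h5 : w j * d * (w j)⁻¹ = d := by
      have := mul_eq_one_iff_eq_inv.1 hz'
      rw [inv_inv] at this
      exact this
    exact mul_inv_eq_iff_eq_mul.1 h5
  funext ⟨j, hj⟩
  apply Subtype.ext
  have h6 := hw4 j hj
  rw [hw3 j hj] at h6
  exact (inv_mul_eq_one.1 h6)

end Pool.Agent.SAC
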