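import Mathlib
import Pool.Agent.Lib.SAC.G1
import Pool.Agent.Lib.SAC.G2
import Pool.Agent.Lib.SAC.G3

/-!
# Subgroups of small index of a power
-/

namespace Pool.Agent.SAC

variable {P : Type} [Group P] {m : ℕ}

/-- Row G4: the group lemma -/
theorem group_main [Finite P] (K : Subgroup (Fin m → P)) (𝒮 : Set (Subgroup P)) (κ : ℝ)
    (hκ : 1 ≤ κ) (hbig : ∀ G : Subgroup P, (G.index : ℝ) < κ → ∃ S ∈ 𝒮, S ≤ G)
    (hs : ∀ S ∈ 𝒮, IsSimpleGroup S ∧ (∀ c ∈ S, (∀ d ∈ S, c * d = d * c) → c = 1) ∧
      κ ^ 2 ≤ Nat.card S)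
    (hK : (K.index : ℝ) < κ ^ m) : ∃ j, ∃ S ∈ 𝒮, ∀ a ∈ S, Pi.mulSingle j a ∈ K := by
  classical
  by_contra hcon
  push Not at hcon
  set Big : Finset (Fin m) := Finset.univ.filter (fun j => ((top K j).index : ℝ) < κ) with hBig
  have hBm : ∀ j, j ∈ Big ↔ ((top K j).index : ℝ) < κ := by
    intro j
    rw [hBig, Finset.mem_filter]
    simp
  have hex : ∀ j, ∃ (S : Subgroup P) (i : Fin m), j ∈ Big → S ∈ 𝒮 ∧ Partner K S j i := by
    intro j
    by_cases hj : j ∈ Big
    · obtain ⟨S, hS, hle⟩ := hbig _ ((hBm j).1 hj)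
      rcases partner K S j hle (hs S hS).1 with h | ⟨i, hi⟩
      · obtain ⟨a, ha, hna⟩ := hcon j S hS
        exact absurd (h a ha) hna
      · exact ⟨S, i, fun _ => ⟨hS, hi⟩⟩
    · exact ⟨⊥, j, fun h => absurd h hj⟩
  choose S f hSf using hex
  have hκ0 : 0 ≤ κ := by linarith
  have key : ∀ i, κ ^ ((Big.filter (fun j => f j = i)).card + (if i ∈ Big then 0 else 1)) ≤
      ((top K i).index : ℝ) := by
    intro i
    set J := Big.filter (fun j => f j = i) with hJ
    have hJm : ∀ j ∈ J, j ∈ Big ∧ f j = i := fun j hj => by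
      rw [hJ, Finset.mem_filter] at hj
      exact hj
    have h1 : ∏ j ∈ J, Nat.card (S j) ≤ (top K i).index := by
      apply inject K i J S
      · intro j hj
        obtain ⟨h1, h2⟩ := hJm j hj
        have := (hSf j h1).2
        rwa [h2] at this
      · intro j hj
        exact (hs _ (hSf j (hJm j hj).1).1).2.1
    have h2 : (κ ^ 2) ^ J.card ≤ ((top K i).index : ℝ) := by
      calc (κ ^ 2) ^ J.card = ∏ _j ∈ J, κ ^ 2 := by rw [Finset.prod_const]
        _ ≤ ∏ j ∈ J, (Nat.card (S j) : ℝ) := by
            apply Finset.prod_le_prod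
            · intro _ _
              positivity
            · intro j hj
              exact (hs _ (hSf j (hJm j hj).1).1).2.2
        _ = ((∏ j ∈ J, Nat.card (S j) : ℕ) : ℝ) := by push_cast; rfl
        _ ≤ _ := by exact_mod_cast h1
    rcases Nat.eq_zero_or_pos J.card with h0 | h0
    · rw [h0, zero_add]
      by_cases hi : i ∈ Big
      · rw [if_pos hi, pow_zero]
        have : 1 ≤ (top K i).index := by
          rw [Nat.one_le_iff_ne_zero]
          exact Subgroup.index_ne_zero_of_finite
        exact_mod_cast this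
      · rw [if_neg hi, pow_one]
        rw [hBm] at hi
        push Not at hi
        exact hi
    · have h3 : κ ^ (J.card + 1) ≤ ((top K i).index : ℝ) := by
        refine le_trans ?_ h2
        rw [← pow_mul]
        exact pow_le_pow_right₀ hκ (by omega)
      refine le_trans ?_ h3
      apply pow_le_pow_right₀ hκ
      split_ifs <;> omega
  have hsum : ∑ i, ((Big.filter (fun j => f j = i)).card + (if i ∈ Big then 0 else 1)) = m := by
    rw [Finset.sum_add_distrib]
    have h1 : ∑ i, (Big.filter (fun j => f j = i)).card = Big.card :=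
      (Finset.card_eq_sum_card_fiberwise (fun j _ => Finset.mem_coe.2 (Finset.mem_univ (f j)))).symm
    have h2 : ∑ i : Fin m, (if i ∈ Big then 0 else 1) = Bigᶜ.card := by
      rw [Finset.card_eq_sum_ones, ← Finset.sum_filter_add_sum_filter_not Finset.univ
        (fun i => i ∈ Big)]
      rw [Finset.sum_eq_zero (s := Finset.univ.filter (fun i => i ∈ Big)), zero_add]
      · have h3 : Finset.univ.filter (fun i => ¬ i ∈ Big) = Bigᶜ := by
          ext i
          simp
        rw [h3]
        apply Finset.sum_congr rfl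
        intro i hi
        rw [if_neg (Finset.mem_compl.1 hi)]
      · intro i hi
        rw [if_pos (Finset.mem_filter.1 hi).2]
    rw [h1, h2, Finset.card_add_card_compl, Fintype.card_fin]
  have hprod : κ ^ m ≤ (K.index : ℝ) := by
    calc κ ^ m = ∏ i, κ ^ ((Big.filter (fun j => f j = i)).card + (if i ∈ Big then 0 else 1)) := by
          rw [Finset.prod_pow_eq_pow_sum, hsum]
      _ ≤ ∏ i, ((top K i).index : ℝ) :=
          Finset.prod_le_prod (fun _ _ => by positivity) (fun i _ => key i)
      _ = ((∏ i, (top K i).index : ℕ) : ℝ) := by push_cast; rfl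
      _ = K.index := by rw [chain]
  linarith

end Pool.Agent.SAC
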