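import Mathlib
import Pool.Agent.Lib.SAC.Base

/-!
# Symmetric algebraic circuits, row F3

The functional `phi` vanishes on functions which do not change when the point `p` is replaced by
its partner.
-/

namespace Pool.Agent.SAC

section functional
variable {V : Type} [Fintype V] [DecidableEq V]

/-- Row F3 -/
theorem phi_eq_zero {L : Type} [Field L] {c : V → Fin 3} {μ : V → V} {E : Finset V}
    (hμ : ∀ p, μ (μ p) = p) (hc : ∀ p, c (μ p) ≠ c p) (hE : ∀ p, (p ∈ E ↔ μ p ∉ E))
    {p : V} (hp : p ∈ E) (u : Finset V → L)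
    (hu : ∀ A : Finset V, p ∈ A → μ p ∉ A → u (insert (μ p) (A.erase p)) = u A) :
    phi c μ E (c p) u = 0 := by
  have hinj : Function.Injective μ := fun a b h => by rw [← hμ a, h, hμ]
  have hpE : p ∈ E.filter (fun q => c q = c p) := Finset.mem_filter.2 ⟨hp, rfl⟩
  unfold phi
  rw [← Finset.insert_erase hpE, Finset.sum_powerset_insert (Finset.notMem_erase _ _),
    ← Finset.sum_add_distrib]
  refine Finset.sum_eq_zero (fun S hS => ?_)
  rw [Finset.mem_powerset] at hS
  have hpS : p ∉ S := fun h => (Finset.mem_erase.1 (hS h)).1 rfl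
  have hSE : ∀ s ∈ S, s ∈ E := fun s hs => (Finset.mem_filter.1 (Finset.mem_erase.1 (hS hs)).2).1
  have hpμ : p ∉ S.image μ := by
    intro h
    obtain ⟨s, hs, e⟩ := Finset.mem_image.1 h
    exact (hE s).1 (hSE s hs) (e ▸ hp)
  have hμp : μ p ∉ S.image μ := by
    intro h
    obtain ⟨s, hs, e⟩ := Finset.mem_image.1 h
    exact hpS (hinj e ▸ hs)
  have h1 : p ∈ tog c μ (c p) S := by
    unfold tog
    refine Finset.mem_union_left _ (Finset.mem_sdiff.2 ⟨?_, hpS⟩)
    exact Finset.mem_filter.2 ⟨Finset.mem_univ _, rfl⟩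
  have h2 : μ p ∉ tog c μ (c p) S := by
    unfold tog
    intro h
    rcases Finset.mem_union.1 h with h | h
    · exact hc p (Finset.mem_filter.1 (Finset.mem_sdiff.1 h).1).2
    · exact hμp h
  have h3 : tog c μ (c p) (insert p S) = insert (μ p) ((tog c μ (c p) S).erase p) := by
    unfold tog
    ext y
    rw [Finset.image_insert]
    simp only [Finset.mem_union, Finset.mem_sdiff, Finset.mem_insert, Finset.mem_erase, not_or]
    constructor
    · rintro (⟨h, h', h''⟩ | h | h)
      · exact Or.inr ⟨h', Or.inl ⟨h, h''⟩⟩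
      · exact Or.inl h
      · exact Or.inr ⟨fun e => hpμ (e ▸ h), Or.inr h⟩
    · rintro (h | ⟨h', ⟨h, h''⟩ | h⟩)
      · exact Or.inr (Or.inl h)
      · exact Or.inl ⟨h, h', h''⟩
      · exact Or.inr (Or.inr h)
  rw [h3, hu _ h1 h2, Finset.card_insert_of_notMem hpS, pow_succ]
  ring

end functional

end Pool.Agent.SAC
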