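import Mathlib
import Pool.Agent.Lib.SAC.Base

/-!
# Symmetric algebraic circuits, row K1

A product of three functions which is not zero and is invariant under the alternating group of
`Ω`, placed on the block `j`, consists of functions that are multiplied by a character of that
group; a product of two disjoint transpositions is a commutator, so it leaves each of the three
functions invariant.
-/

namespace Pool.Agent.SAC

open Equiv Equiv.Perm

namespace K1

/-- a product of two disjoint transpositions is a commutator -/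
lemma comm_eq {α : Type} [DecidableEq α] {p q r s : α} (hpq : p ≠ q) (hpr : p ≠ r) (hps : p ≠ s)
    (hqr : q ≠ r) (hqs : q ≠ s) (hrs : r ≠ s) :
    swap p q * swap r s =
      (swap p q * swap q r) * (swap p q * swap q s) * (swap q r * swap p q) *
        (swap q s * swap p q) := by
  ext x
  simp only [Perm.mul_apply]
  by_cases h1 : x = p
  · subst h1
    simp [swap_apply_def, hpq, hpr, hps, hqr, hqs, hrs, hpq.symm, hpr.symm, hps.symm, hqr.symm,
      hqs.symm, hrs.symm]
  by_cases h2 : x = q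
  · subst h2
    simp [swap_apply_def, hpq, hpr, hps, hqr, hqs, hrs, hpq.symm, hpr.symm, hps.symm, hqr.symm,
      hqs.symm, hrs.symm]
  by_cases h3 : x = r
  · subst h3
    simp [swap_apply_def, hpq, hpr, hps, hqr, hqs, hrs, hpq.symm, hpr.symm, hps.symm, hqr.symm,
      hqs.symm, hrs.symm]
  by_cases h4 : x = s
  · subst h4
    simp [swap_apply_def, hpq, hpr, hps, hqr, hqs, hrs, hpq.symm, hpr.symm, hps.symm, hqr.symm,
      hqs.symm, hrs.symm]
  simp [swap_apply_def, h1, h2, h3, h4]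

lemma pair_mem {α : Type} [Fintype α] [DecidableEq α] {Ω : Finset α} {p q r s : α} (hp : p ∈ Ω)
    (hq : q ∈ Ω) (hr : r ∈ Ω) (hs : s ∈ Ω) (hpq : p ≠ q) (hrs : r ≠ s) :
    swap p q * swap r s ∈ altOn Ω := by
  rw [mem_altOn]
  constructor
  · rw [Perm.sign_mul, sign_swap hpq, sign_swap hrs]
    rfl
  · intro x hx
    have hxp : x ≠ p := fun h => hx (h ▸ hp)
    have hxq : x ≠ q := fun h => hx (h ▸ hq)
    have hxr : x ≠ r := fun h => hx (h ▸ hr)
    have hxs : x ≠ s := fun h => hx (h ▸ hs)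
    rw [Perm.mul_apply, swap_apply_of_ne_of_ne hxr hxs, swap_apply_of_ne_of_ne hxp hxq]

section
variable {m b : ℕ} {L : Type} [Field L]

lemma mv_ms_mul (j : Fin m) (a c : Perm (Fin b)) (A : Finset (Fin m × Fin b)) :
    mv (Pi.mulSingle j (a * c)) A = mv (Pi.mulSingle j a) (mv (Pi.mulSingle j c) A) := by
  rw [← mv_mul, Pi.mulSingle_mul]

lemma mv_ms_one (j : Fin m) (A : Finset (Fin m × Fin b)) :
    mv (Pi.mulSingle j (1 : Perm (Fin b))) A = A := by
  rw [Pi.mulSingle_one, mv_one]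

/-- each of the three functions is multiplied by a scalar -/
lemma char_exists (x : Fin 3 → Finset (Fin m × Fin b) → L) (g : Fin m → Perm (Fin b))
    (hinv : ∀ A B D, x 0 (mv g A) * x 1 (mv g B) * x 2 (mv g D) = x 0 A * x 1 B * x 2 D)
    (hne : ∃ A B D, x 0 A * x 1 B * x 2 D ≠ 0) (k : Fin 3) :
    ∃ χ : L, ∀ A, x k (mv g A) = χ * x k A := by
  obtain ⟨A₀, B₀, D₀, h⟩ := hne
  have h' := h
  rw [← hinv] at h'
  have ha : x 0 (mv g A₀) ≠ 0 := fun e => h' (by rw [e, zero_mul, zero_mul])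
  have hb : x 1 (mv g B₀) ≠ 0 := fun e => h' (by rw [e, mul_zero, zero_mul])
  have hd : x 2 (mv g D₀) ≠ 0 := fun e => h' (by rw [e, mul_zero])
  have key : (∃ χ : L, ∀ A, x 0 (mv g A) = χ * x 0 A) ∧
      (∃ χ : L, ∀ A, x 1 (mv g A) = χ * x 1 A) ∧ (∃ χ : L, ∀ A, x 2 (mv g A) = χ * x 2 A) := by
    refine ⟨⟨x 1 B₀ * x 2 D₀ / (x 1 (mv g B₀) * x 2 (mv g D₀)), fun A => ?_⟩,
      ⟨x 0 A₀ * x 2 D₀ / (x 0 (mv g A₀) * x 2 (mv g D₀)), fun B => ?_⟩,
      ⟨x 0 A₀ * x 1 B₀ / (x 0 (mv g A₀) * x 1 (mv g B₀)), fun D => ?_⟩⟩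
    · have := hinv A B₀ D₀
      field_simp
      linear_combination this
    · have := hinv A₀ B D₀
      field_simp
      linear_combination this
    · have := hinv A₀ B₀ D
      field_simp
      linear_combination this
  fin_cases k
  · exact key.1
  · exact key.2.1
  · exact key.2.2

/-- commutators leave each of the three functions invariant -/
lemma comm_inv (x : Fin 3 → Finset (Fin m × Fin b) → L) (j : Fin m) (Ω : Finset (Fin b))
    (hinv : ∀ a ∈ altOn Ω, ∀ A B D, x 0 (mv (Pi.mulSingle j a) A) *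
      x 1 (mv (Pi.mulSingle j a) B) *
      x 2 (mv (Pi.mulSingle j a) D) = x 0 A * x 1 B * x 2 D)
    (hne : ∃ A B D, x 0 A * x 1 B * x 2 D ≠ 0) (k : Fin 3) {a c a' c' : Perm (Fin b)}
    (ha : a ∈ altOn Ω) (hc : c ∈ altOn Ω) (ha' : a' ∈ altOn Ω) (hc' : c' ∈ altOn Ω)
    (haa : a * a' = 1) (hcc : c * c' = 1) (A : Finset (Fin m × Fin b)) :
    x k (mv (Pi.mulSingle j (a * c * a' * c')) A) = x k A := by
  obtain ⟨χ₁, h1⟩ := char_exists x _ (hinv a ha) hne k
  obtain ⟨χ₂, h2⟩ := char_exists x _ (hinv c hc) hne k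
  obtain ⟨χ₃, h3⟩ := char_exists x _ (hinv a' ha') hne k
  obtain ⟨χ₄, h4⟩ := char_exists x _ (hinv c' hc') hne k
  rw [mv_ms_mul, mv_ms_mul, mv_ms_mul, h1, h2, h3, h4]
  have e1 : χ₁ * (χ₃ * x k A) = x k A := by
    rw [← h3, ← h1, ← mv_ms_mul, haa, mv_ms_one]
  have e2 : χ₂ * (χ₄ * x k A) = x k A := by
    rw [← h4, ← h2, ← mv_ms_mul, hcc, mv_ms_one]
  calc χ₁ * (χ₂ * (χ₃ * (χ₄ * x k A))) = χ₁ * (χ₃ * (χ₂ * (χ₄ * x k A))) := by ring
    _ = x k A := by rw [e2, e1]

end

end K1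

/-- Row K1: a product of three functions invariant under the alternating group of `Ω`, placed on
the block `j`, consists of invariant functions -/
theorem term_sym {m b : ℕ} {L : Type} [Field L] (x : Fin 3 → Finset (Fin m × Fin b) → L)
    (j : Fin m) (Ω : Finset (Fin b)) (hΩ : 5 ≤ Ω.card)
    (hinv : ∀ a ∈ altOn Ω, ∀ A B D, x 0 (mv (Pi.mulSingle j a) A) *
      x 1 (mv (Pi.mulSingle j a) B) *
      x 2 (mv (Pi.mulSingle j a) D) = x 0 A * x 1 B * x 2 D)
    (hne : ∃ A B D, x 0 A * x 1 B * x 2 D ≠ 0) (k : Fin 3) (p q : Fin b) (hp : p ∈ Ω)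
    (hq : q ∈ Ω) (hpq : p ≠ q) (A : Finset (Fin m × Fin b)) (hpA : (j, p) ∈ A)
    (hqA : (j, q) ∉ A) : x k (insert (j, q) (A.erase (j, p))) = x k A := by
  classical
  -- two further points of `Ω`, both in `A` or both outside `A`
  have hcard : (Finset.univ : Finset Bool).card < ((Ω.erase p).erase q).card := by
    rw [Finset.card_erase_of_mem (Finset.mem_erase.2 ⟨hpq.symm, hq⟩), Finset.card_erase_of_mem hp]
    simp only [Finset.card_univ, Fintype.card_bool]
    omega
  obtain ⟨r, hr, s, hs, hrs, hf⟩ := Finset.exists_ne_map_eq_of_card_lt_of_maps_to hcard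
    (f := fun y : Fin b => decide ((j, y) ∈ A)) (fun _ _ => Finset.mem_coe.2 (Finset.mem_univ _))
  have hfA : (j, r) ∈ A ↔ (j, s) ∈ A := by simpa using hf
  have hr1 := Finset.mem_erase.1 hr
  have hr2 := Finset.mem_erase.1 hr1.2
  have hs1 := Finset.mem_erase.1 hs
  have hs2 := Finset.mem_erase.1 hs1.2
  have hqr : q ≠ r := hr1.1.symm
  have hpr : p ≠ r := hr2.1.symm
  have hqs : q ≠ s := hs1.1.symm
  have hps : p ≠ s := hs2.1.symm
  have hrΩ : r ∈ Ω := hr2.2
  have hsΩ : s ∈ Ω := hs2.2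
  have hmv : mv (Pi.mulSingle j (swap p q * swap r s)) A = insert (j, q) (A.erase (j, p)) := by
    ext ⟨i, y⟩
    rw [mem_mv, Finset.mem_insert, Finset.mem_erase, Prod.mk.injEq]
    by_cases hij : i = j
    · subst hij
      rw [Pi.mulSingle_eq_same]
      have hinv' : (swap p q * swap r s)⁻¹ = swap r s * swap p q := by
        rw [mul_inv_rev, swap_inv, swap_inv]
      rw [hinv', Perm.mul_apply]
      by_cases h1 : y = p
      · subst h1
        rw [swap_apply_left, swap_apply_of_ne_of_ne hqr hqs]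
        simp [hqA, hpq]
      by_cases h2 : y = q
      · subst h2
        rw [swap_apply_right, swap_apply_of_ne_of_ne hpr hps]
        simp [hpA]
      rw [swap_apply_of_ne_of_ne h1 h2]
      by_cases h3 : y = r
      · subst h3
        rw [swap_apply_left]
        simp [h1, h2, hfA]
      by_cases h4 : y = s
      · subst h4
        rw [swap_apply_right]
        simp [h1, h2, hfA]
      rw [swap_apply_of_ne_of_ne h3 h4]
      simp [h1, h2]
    · rw [Pi.mulSingle_eq_of_ne hij]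
      simp [hij]
  rw [← hmv, K1.comm_eq hpq hpr hps hqr hqs hrs]
  refine K1.comm_inv x j Ω hinv hne k (K1.pair_mem hp hq hq hrΩ hpq hqr)
    (K1.pair_mem hp hq hq hsΩ hpq hqs) (K1.pair_mem hq hrΩ hp hq hqr hpq)
    (K1.pair_mem hq hsΩ hp hq hqs hpq) ?_ ?_ A
  · rw [mul_assoc, ← mul_assoc (swap q r) (swap q r), swap_mul_self, one_mul, swap_mul_self]
  · rw [mul_assoc, ← mul_assoc (swap q s) (swap q s), swap_mul_self, one_mul, swap_mul_self]

end Pool.Agent.SAC
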