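import Mathlib
import Pool.Agent.Lib.SAC.K1
import Pool.Agent.Lib.SAC.F3

/-!
# Symmetric algebraic circuits, row K2

A product of three functions which is invariant under the alternating group of more than half of
a block is killed by the functional.
-/

namespace Pool.Agent.SAC

open Equiv Equiv.Perm

namespace K2

lemma killed_at {m b : ℕ} {L : Type} [Field L] (x : Fin 3 → Finset (Fin m × Fin b) → L)
    {c : Fin m × Fin b → Fin 3} {μ : Fin m × Fin b → Fin m × Fin b} {E : Finset (Fin m × Fin b)}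
    (hμ : ∀ p, μ (μ p) = p) (hc : ∀ p, c (μ p) ≠ c p)
    (hE : ∀ p, (p ∈ E ↔ μ p ∉ E)) (j : Fin m) (Ω : Finset (Fin b)) (hΩ : 5 ≤ Ω.card)
    (hinv : ∀ a ∈ altOn Ω, ∀ A B D, x 0 (mv (Pi.mulSingle j a) A) *
      x 1 (mv (Pi.mulSingle j a) B) *
      x 2 (mv (Pi.mulSingle j a) D) = x 0 A * x 1 B * x 2 D)
    (hne : ∃ A B D, x 0 A * x 1 B * x 2 D ≠ 0) {p q : Fin b} (hp : p ∈ Ω) (hq : q ∈ Ω)
    (hpq : μ (j, p) = (j, q)) (hpE : (j, p) ∈ E) :
    phi c μ E (c (j, p)) (x (c (j, p))) = 0 := by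
  have hne' : p ≠ q := by
    intro e
    have := hc (j, p)
    rw [hpq, ← e] at this
    exact this rfl
  refine phi_eq_zero hμ hc hE hpE (x (c (j, p))) (fun A h1 h2 => ?_)
  rw [hpq] at h2 ⊢
  exact term_sym x j Ω hΩ hinv hne (c (j, p)) p q hp hq hne' A h1 h2

end K2

/-- Row K2 -/
theorem term_killed {m b : ℕ} {L : Type} [Field L] (x : Fin 3 → Finset (Fin m × Fin b) → L)
    {c : Fin m × Fin b → Fin 3} {μ : Fin m × Fin b → Fin m × Fin b} {E : Finset (Fin m × Fin b)}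
    (hμ : ∀ p, μ (μ p) = p) (hμ1 : ∀ p, (μ p).1 = p.1) (hc : ∀ p, c (μ p) ≠ c p)
    (hE : ∀ p, (p ∈ E ↔ μ p ∉ E)) (j : Fin m) (Ω : Finset (Fin b)) (hΩ : 5 ≤ Ω.card)
    (hΩ2 : b < 2 * Ω.card)
    (hinv : ∀ a ∈ altOn Ω, ∀ A B D, x 0 (mv (Pi.mulSingle j a) A) *
      x 1 (mv (Pi.mulSingle j a) B) *
      x 2 (mv (Pi.mulSingle j a) D) = x 0 A * x 1 B * x 2 D) :
    phi c μ E 0 (x 0) * phi c μ E 1 (x 1) * phi c μ E 2 (x 2) = 0 := by
  classical
  by_cases hne : ∃ A B D, x 0 A * x 1 B * x 2 D ≠ 0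
  · -- the involution on the block `j`
    set ν : Fin b → Fin b := fun y => (μ (j, y)).2 with hν
    have hμν : ∀ y, μ (j, y) = (j, ν y) := fun y => Prod.ext (hμ1 (j, y)) rfl
    have hνν : ∀ y, ν (ν y) = y := by
      intro y
      have h := hμ (j, y)
      rw [hμν, hμν] at h
      exact congrArg Prod.snd h
    have hνinj : Function.Injective ν := fun a d h => by rw [← hνν a, h, hνν]
    have hcap : (Ω ∩ Ω.image ν).Nonempty := by
      rw [← Finset.card_pos]
      have h1 := Finset.card_union_add_card_inter Ω (Ω.image ν)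
      have h2 : (Ω ∪ Ω.image ν).card ≤ b := (Finset.card_le_univ _).trans (by simp)
      rw [Finset.card_image_of_injective _ hνinj] at h1
      omega
    obtain ⟨q, hq⟩ := hcap
    rw [Finset.mem_inter, Finset.mem_image] at hq
    obtain ⟨hq, p, hp, hpq⟩ := hq
    have h1 : μ (j, p) = (j, q) := by rw [hμν, hpq]
    have h2 : μ (j, q) = (j, p) := by rw [← h1, hμ]
    have key : ∃ k : Fin 3, phi c μ E k (x k) = 0 := by
      by_cases hE1 : (j, p) ∈ E
      · exact ⟨_, K2.killed_at x hμ hc hE j Ω hΩ hinv hne hp hq h1 hE1⟩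
      · have hE2 : (j, q) ∈ E := by
          rw [hE, h2]
          exact hE1
        exact ⟨_, K2.killed_at x hμ hc hE j Ω hΩ hinv hne hq hp h2 hE2⟩
    obtain ⟨k, hk⟩ := key
    fin_cases k
    · have hk' : phi c μ E 0 (x 0) = 0 := hk
      rw [hk', zero_mul, zero_mul]
    · have hk' : phi c μ E 1 (x 1) = 0 := hk
      rw [hk', mul_zero, zero_mul]
    · have hk' : phi c μ E 2 (x 2) = 0 := hk
      rw [hk', mul_zero]
  · by_contra hcon
    apply hne
    have hex : ∀ k : Fin 3, phi c μ E k (x k) ≠ 0 → ∃ A, x k A ≠ 0 := by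
      intro k hk
      by_contra h
      push Not at h
      apply hk
      unfold phi
      exact Finset.sum_eq_zero (fun S _ => by rw [h, mul_zero])
    obtain ⟨A, hA⟩ := hex 0 (fun e => hcon (by rw [e, zero_mul, zero_mul]))
    obtain ⟨B, hB⟩ := hex 1 (fun e => hcon (by rw [e, mul_zero, zero_mul]))
    obtain ⟨D, hD⟩ := hex 2 (fun e => hcon (by rw [e, mul_zero]))
    exact ⟨A, B, D, mul_ne_zero (mul_ne_zero hA hB) hD⟩

end Pool.Agent.SAC
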