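import Mathlib

/-!
# Symmetric algebraic circuits, row M

If each colour occurs on at most half of a block, the points of the block can be matched in pairs
of different colours: sort the points by colour and match the `i`-th point with the
`(i + b/2)`-th.
-/

namespace Pool.Agent.SAC

namespace M

/-- the shift by half of the length -/
def shift {b h : ℕ} (hb : b = h + h) (i : Fin b) : Fin b :=
  if hi : i.val < h then ⟨i.val + h, by omega⟩ else ⟨i.val - h, by omega⟩

lemma shift_shift {b h : ℕ} (hb : b = h + h) (i : Fin b) : shift hb (shift hb i) = i := by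
  apply Fin.ext
  unfold shift
  by_cases hi : i.val < h
  · rw [dif_pos hi]
    simp
  · rw [dif_neg hi]
    have h1 : i.val - h < h := by omega
    rw [dif_pos (show (⟨i.val - h, by omega⟩ : Fin b).val < h from h1)]
    simp only
    omega

lemma shift_ne {b h : ℕ} (hb : b = h + h) (g : Fin b → Fin 3) (hg : Monotone g)
    (hc : ∀ k, (Finset.univ.filter (fun i => g i = k)).card ≤ h) (i : Fin b) (hi : i.val < h) :
    g (shift hb i) ≠ g i := by
  intro e
  have hs : (shift hb i).val = i.val + h := by
    unfold shift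
    rw [dif_pos hi]
  have hsub : Finset.Icc i (shift hb i) ⊆ Finset.univ.filter (fun l => g l = g i) := by
    intro l hl
    rw [Finset.mem_Icc] at hl
    refine Finset.mem_filter.2 ⟨Finset.mem_univ _, le_antisymm ?_ (hg hl.1)⟩
    rw [← e]
    exact hg hl.2
  have h1 := (Finset.card_le_card hsub).trans (hc (g i))
  rw [Fin.card_Icc, hs] at h1
  omega

/-- one block -/
lemma block {b h : ℕ} (hb : b = h + h) (f : Fin b → Fin 3)
    (hc : ∀ k, (Finset.univ.filter (fun i => f i = k)).card ≤ h) :
    ∃ ν : Fin b → Fin b, (∀ y, ν (ν y) = y) ∧ ∀ y, f (ν y) ≠ f y := by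
  classical
  set σ := Tuple.sort f with hσ
  have hmono : Monotone (f ∘ σ) := Tuple.monotone_sort f
  have hc' : ∀ k, (Finset.univ.filter (fun i => (f ∘ σ) i = k)).card ≤ h := by
    intro k
    refine le_trans (le_of_eq ?_) (hc k)
    refine Finset.card_bij (fun i _ => σ i) (fun i hi => ?_) (fun i _ l _ e => σ.injective e)
      (fun y hy => ?_)
    · rw [Finset.mem_filter] at hi ⊢
      exact ⟨Finset.mem_univ _, hi.2⟩
    · rw [Finset.mem_filter] at hy
      exact ⟨σ.symm y, Finset.mem_filter.2 ⟨Finset.mem_univ _, by simpa using hy.2⟩, by simp⟩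
  have key : ∀ i, f (σ (shift hb i)) ≠ f (σ i) := by
    intro i
    by_cases hi : i.val < h
    · exact shift_ne hb (f ∘ σ) hmono hc' i hi
    · have hs : (shift hb i).val < h := by
        unfold shift
        rw [dif_neg hi]
        simp only
        omega
      have h1 := shift_ne hb (f ∘ σ) hmono hc' (shift hb i) hs
      rw [shift_shift] at h1
      exact fun e => h1 e.symm
  refine ⟨fun y => σ (shift hb (σ.symm y)), fun y => ?_, fun y => ?_⟩
  · simp [shift_shift]
  · have h1 := key (σ.symm y)
    simpa using h1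

end M

/-- Row M -/
theorem exists_matching {m b : ℕ} (hb : Even b) (c : Fin m × Fin b → Fin 3)
    (hc : ∀ j k, 2 * (Finset.univ.filter (fun p : Fin m × Fin b => p.1 = j ∧ c p = k)).card ≤ b) :
    ∃ μ : Fin m × Fin b → Fin m × Fin b, (∀ p, μ (μ p) = p) ∧ (∀ p, (μ p).1 = p.1) ∧
      ∀ p, c (μ p) ≠ c p := by
  classical
  obtain ⟨h, hh⟩ := hb
  have hblock : ∀ j : Fin m, ∃ ν : Fin b → Fin b, (∀ y, ν (ν y) = y) ∧
      ∀ y, c (j, ν y) ≠ c (j, y) := by
    intro j
    refine M.block hh (fun y => c (j, y)) (fun k => ?_)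
    have h1 : (Finset.univ.filter (fun y : Fin b => c (j, y) = k)).card ≤
        (Finset.univ.filter (fun p : Fin m × Fin b => p.1 = j ∧ c p = k)).card := by
      refine Finset.card_le_card_of_injOn (fun y => (j, y)) (fun y hy => ?_)
        (fun y _ z _ e => congrArg Prod.snd e)
      have hy' := (Finset.mem_filter.1 (Finset.mem_coe.1 hy)).2
      exact Finset.mem_coe.2 (Finset.mem_filter.2 ⟨Finset.mem_univ _, rfl, hy'⟩)
    have h2 := hc j k
    omega
  choose ν h1 h2 using hblock
  refine ⟨fun p => (p.1, ν p.1 p.2), fun p => ?_, fun p => rfl, fun p => h2 p.1 p.2⟩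
  exact Prod.ext rfl (h1 p.1 p.2)

end Pool.Agent.SAC
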