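import Mathlib
import Pool.Agent.Lib.SAC.Base
import Pool.Agent.Lib.MP_8fffab_lc_SymB.Group
import Pool.Agent.Lib.MP_8fffab_lc_Sym.Rate

/-!
# Numbers
-/

namespace Pool.Agent.SAC

open Equiv Equiv.Perm Filter Topology
open Pool.Agent.SymCirc Pool.Agent.SymSC

lemma two_pow_le_choose (b : ℕ) : 2 ^ b ≤ (b + 1) * b.choose (b / 2) := by
  rw [← Nat.sum_range_choose]
  calc ∑ k ∈ Finset.range (b + 1), b.choose k ≤ ∑ _k ∈ Finset.range (b + 1), b.choose (b / 2) :=
        Finset.sum_le_sum (fun k _ => Nat.choose_le_middle k b)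
    _ = _ := by rw [Finset.sum_const, Finset.card_range, smul_eq_mul]

lemma exists_delta3 (b : ℝ) (hb : b < 2) : ∃ δ : ℝ, 0 < δ ∧ b * (1 + δ) ^ 2 < 2 := by
  have h : Tendsto (fun x : ℝ => b * (1 + x) ^ 2) (𝓝[>] 0) (𝓝 (b * (1 + 0) ^ 2)) := by
    apply Tendsto.mono_left _ nhdsWithin_le_nhds
    exact (by fun_prop : Continuous fun x : ℝ => b * (1 + x) ^ 2).tendsto 0
  have h2 : ∀ᶠ x in 𝓝[>] (0 : ℝ), b * (1 + x) ^ 2 < 2 :=
    h.eventually (gt_mem_nhds (by simpa using hb))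
  obtain ⟨x, hx, hx0⟩ := (h2.and self_mem_nhdsWithin).exists
  exact ⟨x, hx0, hx⟩

/-- Row N1 -/
theorem numbers1 (β : ℝ) (h0 : 0 ≤ β) (h2 : β < 2) : ∃ b₀ : ℕ, ∀ b ≥ b₀,
    ∀ G : Subgroup (Perm (Fin b)), (G.index : ℝ) < β ^ b →
      ∃ Ω : Finset (Fin b), b < 2 * Ω.card ∧ altOn Ω ≤ G := by
  obtain ⟨δ, hδ, hβδ⟩ := exists_delta3 β h2
  obtain ⟨K', hK', hK4⟩ := exists_K δ hδ
  obtain ⟨K, hKdef⟩ : ∃ K, K = 2 * K' := ⟨_, rfl⟩
  have hK : 1 ≤ K := by omega
  have hK9 : (9 : ℝ) ≤ (1 + δ) ^ K := by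
    rw [hKdef, mul_comm, pow_mul]
    calc (9 : ℝ) ≤ 4 ^ 2 := by norm_num
      _ ≤ _ := pow_le_pow_left₀ (by norm_num) hK4 2
  obtain ⟨m₁, hm₁⟩ := exists_lin δ hδ
  obtain ⟨m₂, hm₂⟩ := exists_factorial K 2 hK
  refine ⟨m₁ + m₂ + 2, fun b hb G hG => ?_⟩
  set c := b / K with hc
  have h1 : G.index < c.factorial := by
    have h3 : (G.index : ℝ) < ((2 ^ b : ℕ) : ℝ) := by
      refine hG.trans_le ?_
      push_cast
      exact pow_le_pow_left₀ h0 h2.le b
    have h4 : G.index < 2 ^ b := by exact_mod_cast h3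
    exact h4.trans (hm₂ b (by omega))
  have h3 : G.index * 3 ^ (2 * c) < b.choose (b / 2) := by
    have e1 : ((3 : ℝ) ^ (2 * c)) ≤ (1 + δ) ^ b := by
      calc (3 : ℝ) ^ (2 * c) = 9 ^ c := by rw [pow_mul]; norm_num
        _ ≤ ((1 + δ) ^ K) ^ c := pow_le_pow_left₀ (by norm_num) hK9 c
        _ = (1 + δ) ^ (K * c) := (pow_mul _ _ _).symm
        _ ≤ (1 + δ) ^ b := pow_le_pow_right₀ (by linarith) (Nat.mul_div_le b K)
    have e2 : ((b : ℝ) + 1) < (1 + δ) ^ b := by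
      have := hm₁ b (by omega)
      have hb1 : (2 : ℝ) ≤ b := by exact_mod_cast (show 2 ≤ b by omega)
      linarith
    have e3 : (2 : ℝ) ^ b ≤ (b + 1) * (b.choose (b / 2) : ℝ) := by
      exact_mod_cast two_pow_le_choose b
    have e4 : ((G.index * 3 ^ (2 * c) : ℕ) : ℝ) * (b + 1) < (b.choose (b / 2) : ℝ) * (b + 1) := by
      push_cast
      have hpos : (0 : ℝ) < (1 + δ) ^ b := by positivity
      calc (G.index : ℝ) * 3 ^ (2 * c) * (b + 1) ≤ G.index * (1 + δ) ^ b * (b + 1) := by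
            apply mul_le_mul_of_nonneg_right _ (by positivity)
            exact mul_le_mul_of_nonneg_left e1 (by positivity)
        _ ≤ β ^ b * (1 + δ) ^ b * (b + 1) := by
            apply mul_le_mul_of_nonneg_right _ (by positivity)
            exact mul_le_mul_of_nonneg_right hG.le hpos.le
        _ < 2 ^ b := by
            rcases h0.eq_or_lt with h | h
            · rw [← h, zero_pow (by omega)]
              simp
            · calc β ^ b * (1 + δ) ^ b * (b + 1) < β ^ b * (1 + δ) ^ b * (1 + δ) ^ b :=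
                    mul_lt_mul_of_pos_left e2 (by positivity)
                _ = (β * (1 + δ) ^ 2) ^ b := by rw [mul_pow, ← pow_mul]; ring
                _ ≤ 2 ^ b := pow_le_pow_left₀ (by positivity) hβδ.le b
        _ ≤ (b + 1) * (b.choose (b / 2) : ℝ) := e3
        _ = _ := mul_comm _ _
    have e5 : ((G.index * 3 ^ (2 * c) : ℕ) : ℝ) < (b.choose (b / 2) : ℝ) :=
      lt_of_mul_lt_mul_right e4 (by positivity)
    exact_mod_cast e5
  have h4 : G.index * 2 ^ (2 * c) < b.choose (b / 2) :=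
    lt_of_le_of_lt (Nat.mul_le_mul_left _ (Nat.pow_le_pow_left (by norm_num) _)) h3
  obtain ⟨a, ha⟩ := exists_big2 (G := G) (b := c) (r := b / 2) h1
    (by rw [Fintype.card_fin]; exact h3) (by rw [Fintype.card_fin]; exact h4)
    (by rw [Fintype.card_fin]; omega) (by rw [Fintype.card_fin]; omega)
  rw [Fintype.card_fin] at ha
  refine ⟨cls G a, by omega, ?_⟩
  rintro π ⟨hs, hfix⟩
  apply mem_of_fix_outside a hs
  intro x hx
  apply hfix
  rw [mem_cls]
  exact hx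

end Pool.Agent.SAC
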