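import Mathlib

/-!
# Symmetric algebraic circuits, row N2
-/

namespace Pool.Agent.SAC

open Filter in
/-- Row N2 -/
theorem numbers2 (β : ℝ) (h0 : 0 ≤ β) : ∃ b₀ : ℕ, ∀ b ≥ b₀, ∀ n : ℕ, b < 2 * n →
    2 * (β ^ b) ^ 2 ≤ (n.factorial : ℝ) := by
  set B : ℝ := max β 1 with hB
  have hB1 : 1 ≤ B := le_max_right _ _
  have hB0 : 0 ≤ B := zero_le_one.trans hB1
  have hlim := FloorSemiring.tendsto_pow_div_factorial_atTop (B ^ 4)
  obtain ⟨n₀, hn₀⟩ := eventually_atTop.1 (hlim.eventually (gt_mem_nhds (show (0 : ℝ) < 1 / 2 by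
    norm_num)))
  refine ⟨2 * n₀, fun b hb n hbn => ?_⟩
  have hn : n₀ ≤ n := by omega
  have h1 := hn₀ n hn
  have hf : (0 : ℝ) < n.factorial := by exact_mod_cast Nat.factorial_pos n
  rw [div_lt_iff₀ hf] at h1
  have h2 : (β ^ b) ^ 2 ≤ (B ^ 4) ^ n := by
    calc (β ^ b) ^ 2 = β ^ (b * 2) := by rw [pow_mul]
      _ ≤ B ^ (b * 2) := pow_le_pow_left₀ h0 (le_max_left _ _) _
      _ ≤ B ^ (4 * n) := pow_le_pow_right₀ hB1 (by omega)
      _ = (B ^ 4) ^ n := by rw [pow_mul]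
  linarith

end Pool.Agent.SAC
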