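import Mathlib
import Pool.Agent.Lib.SAC.Base

/-!
# The stabiliser of a term of an invariant decomposition has small index
-/

namespace Pool.Agent.SAC

open Equiv Equiv.Perm

lemma index_le_of_map' {P X : Type} [Group P] [Finite X] (K H : Subgroup P) (hle : H ≤ K)
    (F : K → X) (hF : ∀ k k' : K, F k = F k' → (k : P)⁻¹ * k' ∈ H) :
    H.index ≤ Nat.card X * K.index := by
  rw [← Subgroup.relIndex_mul_index hle]
  apply Nat.mul_le_mul_right
  have h6 : H.relIndex K = Nat.card (K ⧸ H.subgroupOf K) := rfl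
  rw [h6]
  apply Nat.card_le_card_of_injective (fun q : K ⧸ H.subgroupOf K => F q.out)
  intro q q' h
  have h2 : (q.out)⁻¹ * q'.out ∈ H.subgroupOf K := by
    rw [Subgroup.mem_subgroupOf]
    exact hF _ _ h
  have h3 := QuotientGroup.eq.2 h2
  rwa [QuotientGroup.out_eq', QuotientGroup.out_eq'] at h3

/-- Row R1 -/
theorem index_tstab {m b : ℕ} {L : Type} [Field L] {ι : Type} [Fintype ι]
    (x : Fin 3 → ι → Finset (Fin m × Fin b) → L) (H : Subgroup (Fin m → Perm (Fin b)))
    (hinv : ∀ g ∈ H, ∃ σ : Perm ι, ∀ i A B D,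
      x 0 (σ i) (mv g A) * x 1 (σ i) (mv g B) * x 2 (σ i) (mv g D) = x 0 i A * x 1 i B * x 2 i D)
    (i : ι) : (tstab (fun k => x k i)).index ≤ Fintype.card ι * H.index := by
  classical
  have hσ : ∀ g : H, ∃ σ : Perm ι, ∀ i A B D,
      x 0 (σ i) (mv g A) * x 1 (σ i) (mv g B) * x 2 (σ i) (mv g D) = x 0 i A * x 1 i B * x 2 i D :=
    fun g => hinv g.1 g.2
  choose σ hσ using hσ
  have h1 : (tstab (fun k => x k i) ⊓ H).index ≤ Nat.card ι * H.index := by
    apply index_le_of_map' H _ inf_le_right (fun g => σ g i)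
    intro k k' h
    refine ⟨?_, H.mul_mem (H.inv_mem k.2) k'.2⟩
    intro A B D
    have e : ∀ A : Finset (Fin m × Fin b), mv (k : Fin m → Perm (Fin b))
        (mv ((k : Fin m → Perm (Fin b))⁻¹ * k') A) = mv (k' : Fin m → Perm (Fin b)) A := by
      intro A
      rw [← mv_mul, mul_inv_cancel_left]
    have h2 := hσ k i (mv ((k : Fin m → Perm (Fin b))⁻¹ * k') A)
      (mv ((k : Fin m → Perm (Fin b))⁻¹ * k') B) (mv ((k : Fin m → Perm (Fin b))⁻¹ * k') D)
    rw [e, e, e] at h2
    have h : σ k i = σ k' i := h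
    rw [h, hσ k' i A B D] at h2
    exact h2.symm
  rw [← Nat.card_eq_fintype_card]
  refine le_trans ?_ h1
  apply Nat.le_of_dvd
  · exact Nat.pos_of_ne_zero Subgroup.index_ne_zero_of_finite
  · exact Subgroup.index_dvd_of_le inf_le_left

end Pool.Agent.SAC
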