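import Mathlib
import Pool.Agent.Lib.SAC.G4
import Pool.Agent.Lib.SAC.A2
import Pool.Agent.Lib.SAC.N1
import Pool.Agent.Lib.SAC.N2
import Pool.Agent.Lib.SAC.M
import Pool.Agent.Lib.SAC.F0
import Pool.Agent.Lib.SAC.F2
import Pool.Agent.Lib.SAC.K2
import Pool.Agent.Lib.SAC.R1

/-!
# The bound for locally symmetric decompositions
-/

namespace Pool.Agent.SAC

open Equiv Equiv.Perm

/-- the colouring of a partition -/
lemma exists_colour {V : Type} [Fintype V] [DecidableEq V] {A₀ B₀ D₀ : Finset V}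
    (h : IsPartition A₀ B₀ D₀) : ∃ c : V → Fin 3, cl c 0 = A₀ ∧ cl c 1 = B₀ ∧ cl c 2 = D₀ := by
  obtain ⟨h1, h2, h3, h4⟩ := h
  refine ⟨fun p => if p ∈ A₀ then 0 else if p ∈ B₀ then 1 else 2, ?_, ?_, ?_⟩
  · ext p
    unfold cl
    rw [Finset.mem_filter]
    simp only [Finset.mem_univ, true_and]
    split_ifs with a1 a2 <;> simp [a1]
  · ext p
    unfold cl
    rw [Finset.mem_filter]
    simp only [Finset.mem_univ, true_and]
    split_ifs with a1 a2
    · simp [Finset.disjoint_left.1 h1 a1]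
    · simp [a2]
    · simp [a2]
  · ext p
    unfold cl
    rw [Finset.mem_filter]
    simp only [Finset.mem_univ, true_and]
    split_ifs with a1 a2
    · simp [Finset.disjoint_left.1 h2 a1]
    · simp [Finset.disjoint_left.1 h3 a2]
    · have hp : p ∈ A₀ ∪ B₀ ∪ D₀ := by
        rw [h4]
        exact Finset.mem_univ _
      rw [Finset.mem_union, Finset.mem_union] at hp
      simp only [true_iff]
      tauto

/-- Row R2 -/
theorem rank_main (β : ℝ) (h0 : 1 ≤ β) (h2 : β < 2) : ∃ b₀ : ℕ, ∀ b ≥ b₀, Even b → ∀ m : ℕ,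
    ∀ (L : Type) [Field L] (Γ₀ : Type) [LinearOrderedCommGroupWithZero Γ₀] (v : Valuation L Γ₀)
      (T : Finset (Fin m × Fin b) → Finset (Fin m × Fin b) → Finset (Fin m × Fin b) → L)
      (_ : Detects v T) (ι : Type) [Fintype ι] (x : Fin 3 → ι → Finset (Fin m × Fin b) → L)
      (_ : ∀ A B D, T A B D = ∑ i, x 0 i A * x 1 i B * x 2 i D)
      (H : Subgroup (Fin m → Perm (Fin b)))
      (_ : ∀ g ∈ H, ∃ σ : Perm ι, ∀ i A B D,
        x 0 (σ i) (mv g A) * x 1 (σ i) (mv g B) * x 2 (σ i) (mv g D) =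
          x 0 i A * x 1 i B * x 2 i D),
      β ^ (m * b) ≤ Fintype.card ι * H.index := by
  obtain ⟨b₁, hb₁⟩ := numbers1 β (by linarith) h2
  obtain ⟨b₂, hb₂⟩ := numbers2 β (by linarith)
  refine ⟨b₁ + b₂ + 9, ?_⟩
  intro b hb hbe m L _ Γ₀ _ v T hT ι _ x hx H hinv
  classical
  by_contra hlt
  push Not at hlt
  obtain ⟨A₀, B₀, D₀, hpart, hA, hB, hD, hT0, hTv⟩ := hT
  obtain ⟨c, hc0, hc1, hc2⟩ := exists_colour hpart
  -- the matching
  have hhalf : ∀ (j : Fin m) (k : Fin 3),
      2 * (Finset.univ.filter (fun p : Fin m × Fin b => p.1 = j ∧ c p = k)).card ≤ b := by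
    intro j k
    have e : Finset.univ.filter (fun p : Fin m × Fin b => p.1 = j ∧ c p = k) =
        (cl c k).filter (fun p => p.1 = j) := by
      ext p
      unfold cl
      simp only [Finset.mem_filter, Finset.mem_univ, true_and]
      exact and_comm
    rw [e]
    fin_cases k
    · show 2 * ((cl c 0).filter (fun p => p.1 = j)).card ≤ b
      rw [hc0]
      exact hA j
    · show 2 * ((cl c 1).filter (fun p => p.1 = j)).card ≤ b
      rw [hc1]
      exact hB j
    · show 2 * ((cl c 2).filter (fun p => p.1 = j)).card ≤ b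
      rw [hc2]
      exact hD j
  obtain ⟨μ, hμ, hμ1, hμc⟩ := exists_matching hbe c hhalf
  obtain ⟨E, hE⟩ := exists_reps μ hμ (fun p h => hμc p (by rw [h]))
  -- the functional does not vanish
  have hne := phi_ne_zero v T hμ hμc hE (by rw [hc0, hc1, hc2]; exact hT0)
    (by rw [hc0, hc1, hc2]; exact hTv) x hx
  apply hne
  apply Finset.sum_eq_zero
  intro i _
  -- the stabiliser
  have hidx := index_tstab x H hinv i
  have hidx2 : ((tstab (fun k => x k i)).index : ℝ) < (β ^ b) ^ m := by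
    refine lt_of_le_of_lt (b := ((Fintype.card ι * H.index : ℕ) : ℝ)) (by exact_mod_cast hidx) ?_
    push_cast
    rw [← pow_mul, mul_comm b m]
    exact hlt
  have hgr := group_main (tstab (fun k => x k i))
    {S | ∃ Ω : Finset (Fin b), b < 2 * Ω.card ∧ S = altOn Ω} (β ^ b) (one_le_pow₀ h0)
    (by
      intro G hG
      obtain ⟨Ω, h3, h4⟩ := hb₁ b (by omega) G hG
      exact ⟨altOn Ω, ⟨Ω, h3, rfl⟩, h4⟩)
    (by
      rintro S ⟨Ω, h3, rfl⟩
      have h5 : 5 ≤ Ω.card := by omega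
      refine ⟨altOn_simple Ω h5, altOn_center Ω (by omega), ?_⟩
      have h6 := hb₂ b (by omega) Ω.card h3
      have h7 := altOn_card Ω (by omega)
      rw [← h7] at h6
      push_cast at h6
      linarith)
    hidx2
  obtain ⟨j, S, ⟨Ω, h3, rfl⟩, h8⟩ := hgr
  exact term_killed (fun k => x k i) hμ hμ1 hμc hE j Ω (by omega) h3
    (fun a ha => h8 a ha)

end Pool.Agent.SAC
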