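import Mathlib
import Pool.Agent.Lib.SAC.R2
import Pool.Agent.Lib.SAC.E4

/-!
# The lower bound for locally symmetric algebraic circuits
-/

namespace Pool.Agent.SAC

open Equiv Equiv.Perm Filter Topology

set_option linter.unusedSectionVars false

section aut
variable {V L Γ : Type} [Field L] [Fintype V] [Fintype Γ] {C : Circuit V L Γ}

lemma map_one' (A : Finset V) : A.map (1 : Perm V).toEmbedding = A := Finset.map_refl

lemma app_inv' {X : Type} (τ : Perm X) (g : X) : τ (τ⁻¹ g) = g := τ.apply_symm_apply g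

lemma inv_app' {X : Type} (τ : Perm X) (g : X) : τ⁻¹ (τ g) = g := τ.symm_apply_apply g

lemma map_mul' (π π' : Perm V) (A : Finset V) : A.map (π * π').toEmbedding =
    (A.map π'.toEmbedding).map π.toEmbedding := by
  rw [Finset.map_map]
  rfl

lemma IsAut.one : C.IsAut 1 1 where
  const_eq _ := rfl
  var_eq g k A := by
    rw [map_one']
    rfl
  lin_eq _ _ := rfl
  isProd_eq _ := rfl
  prod_eq _ _ := Or.inl ⟨rfl, rfl⟩
  out_eq := rfl

lemma IsAut.mul {π π' : Perm V} {τ τ' : Perm Γ} (h : C.IsAut π τ) (h' : C.IsAut π' τ') :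
    C.IsAut (π * π') (τ * τ') where
  const_eq g := by rw [Perm.mul_apply, h.const_eq, h'.const_eq]
  var_eq g k A := by rw [map_mul', Perm.mul_apply, h.var_eq, h'.var_eq]
  lin_eq g k := by rw [Perm.mul_apply, Perm.mul_apply, h.lin_eq, h'.lin_eq]
  isProd_eq g := by rw [Perm.mul_apply, h.isProd_eq, h'.isProd_eq]
  prod_eq g hg := by
    rw [Perm.mul_apply, Perm.mul_apply, Perm.mul_apply]
    have hg' : C.isProd (τ' g) = true := by rw [h'.isProd_eq, hg]
    rcases h.prod_eq (τ' g) hg' with ⟨a, b⟩ | ⟨a, b⟩ <;>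
      rcases h'.prod_eq g hg with ⟨c, d⟩ | ⟨c, d⟩
    · left
      rw [a, b, c, d]
      exact ⟨rfl, rfl⟩
    · right
      rw [a, b, c, d]
      exact ⟨rfl, rfl⟩
    · right
      rw [a, b, c, d]
      exact ⟨rfl, rfl⟩
    · left
      rw [a, b, c, d]
      exact ⟨rfl, rfl⟩
  out_eq := by rw [Perm.mul_apply, h'.out_eq, h.out_eq]

lemma IsAut.inv {π : Perm V} {τ : Perm Γ} (h : C.IsAut π τ) : C.IsAut π⁻¹ τ⁻¹ where
  const_eq g := by
    have := h.const_eq (τ⁻¹ g)
    rw [app_inv'] at this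
    exact this.symm
  var_eq g k A := by
    have := h.var_eq (τ⁻¹ g) k (A.map (π⁻¹).toEmbedding)
    rw [app_inv', ← map_mul', mul_inv_cancel] at this
    rw [map_one'] at this
    exact this.symm
  lin_eq g k := by
    have := h.lin_eq (τ⁻¹ g) (τ⁻¹ k)
    rw [app_inv', app_inv'] at this
    exact this.symm
  isProd_eq g := by
    have := h.isProd_eq (τ⁻¹ g)
    rw [app_inv'] at this
    exact this.symm
  prod_eq g hg := by
    have hg' : C.isProd (τ⁻¹ g) = true := by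
      have := h.isProd_eq (τ⁻¹ g)
      rw [app_inv'] at this
      rw [← this, hg]
    have := h.prod_eq (τ⁻¹ g) hg'
    rw [app_inv'] at this
    rcases this with ⟨a, b⟩ | ⟨a, b⟩
    · left
      rw [a, b, inv_app', inv_app']
      exact ⟨rfl, rfl⟩
    · right
      rw [a, b, inv_app', inv_app']
      exact ⟨rfl, rfl⟩
  out_eq := by
    rw [Perm.inv_eq_iff_eq]
    exact h.out_eq.symm

end aut

section loc
variable {m b : ℕ} {L Γ : Type} [Field L] [Fintype Γ]

lemma pcr_one : (prodCongrRight (1 : Fin m → Perm (Fin b)) : Perm (Fin m × Fin b)) = 1 := by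
  ext ⟨j, x⟩ <;> rfl

lemma pcr_mul (g h : Fin m → Perm (Fin b)) : (prodCongrRight (g * h) : Perm (Fin m × Fin b)) =
    prodCongrRight g * prodCongrRight h := by
  ext ⟨j, x⟩ <;> rfl

lemma pcr_inv (g : Fin m → Perm (Fin b)) : (prodCongrRight g⁻¹ : Perm (Fin m × Fin b)) =
    (prodCongrRight g)⁻¹ := by
  rw [eq_inv_iff_mul_eq_one, ← pcr_mul, inv_mul_cancel, pcr_one]

/-- the group of local symmetries of a circuit -/
def Circuit.locSym (C : Circuit (Fin m × Fin b) L Γ) : Subgroup (Fin m → Perm (Fin b)) where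
  carrier := {g | ∃ τ : Perm Γ, C.IsAut (prodCongrRight g) τ}
  one_mem' := ⟨1, by rw [pcr_one]; exact IsAut.one⟩
  mul_mem' := by
    rintro g h ⟨τ, hτ⟩ ⟨τ', hτ'⟩
    exact ⟨τ * τ', by rw [pcr_mul]; exact IsAut.mul hτ hτ'⟩
  inv_mem' := by
    rintro g ⟨τ, hτ⟩
    exact ⟨τ⁻¹, by rw [pcr_inv]; exact IsAut.inv hτ⟩

lemma Circuit.card_locSym (C : Circuit (Fin m × Fin b) L Γ) :
    Nat.card C.locSym = C.numLocalSym := rfl

end loc

/-- Row Z1 -/
theorem lower_bound (β : ℝ) (h0 : 0 ≤ β) (h2 : β < 2) : ∃ b₀ : ℕ, ∀ b ≥ b₀, Even b →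
    ∀ m : ℕ, 1 ≤ m → ∀ (L : Type) [Field L] (Γ₀ : Type) [LinearOrderedCommGroupWithZero Γ₀]
      (v : Valuation L Γ₀) (Γ : Type) [Fintype Γ] (C : Circuit (Fin m × Fin b) L Γ),
      Detects v C.coeff →
      β ^ (m * b) * C.numLocalSym < C.products * ((b.factorial : ℝ) ^ m) := by
  obtain ⟨β₁, hβ₁⟩ : ∃ x, x = max β 1 := ⟨_, rfl⟩
  have h11 : 1 ≤ β₁ := hβ₁ ▸ le_max_right _ _
  have h12 : β ≤ β₁ := hβ₁ ▸ le_max_left _ _
  have h13 : β₁ < 2 := hβ₁ ▸ max_lt h2 (by norm_num)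
  obtain ⟨β₂, hβ₂⟩ : ∃ x, x = (β₁ + 2) / 2 := ⟨_, rfl⟩
  have h21 : β₁ < β₂ := by rw [hβ₂]; linarith
  have h22 : β₂ < 2 := by rw [hβ₂]; linarith
  obtain ⟨b₁, hb₁⟩ := rank_main β₂ (by linarith) h22
  have hpow : ∃ n₀ : ℕ, ∀ n ≥ n₀, 6 * β₁ ^ n < β₂ ^ n := by
    have h := tendsto_pow_atTop_atTop_of_one_lt (show (1 : ℝ) < β₂ / β₁ by
      rw [one_lt_div (by linarith)]
      exact h21)
    obtain ⟨n₀, hn₀⟩ := eventually_atTop.1 (h.eventually_gt_atTop 6)
    refine ⟨n₀, fun n hn => ?_⟩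
    have := hn₀ n hn
    rw [div_pow, lt_div_iff₀ (by positivity)] at this
    exact this
  obtain ⟨n₀, hn₀⟩ := hpow
  refine ⟨b₁ + n₀, ?_⟩
  intro b hb hbe m hm L _ Γ₀ _ v Γ _ C hC
  classical
  have hmb : n₀ ≤ m * b := by
    calc n₀ ≤ b := by omega
      _ = 1 * b := (one_mul b).symm
      _ ≤ m * b := Nat.mul_le_mul_right _ hm
  have hmain := hb₁ b (by omega) hbe m L Γ₀ v C.coeff hC
    ({h : Γ // C.isProd h = true} × Perm (Fin 3))
    (fun k i A => k1 (k, A) (C.form i.1 (i.2 k))) (fun A B D => C.decomp A B D) C.locSym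
    (by
      rintro g ⟨τ, hτ⟩
      obtain ⟨σ, hσ⟩ := Circuit.decomp_inv hτ
      refine ⟨σ, fun i A B D => ?_⟩
      show k1 (0, A.map (prodCongrRight g).toEmbedding) _ *
        k1 (1, B.map (prodCongrRight g).toEmbedding) _ *
        k1 (2, D.map (prodCongrRight g).toEmbedding) _ = _
      rw [hσ i 0 A, hσ i 1 B, hσ i 2 D])
  have hcard : Fintype.card ({h : Γ // C.isProd h = true} × Perm (Fin 3)) = C.products * 6 := by
    rw [Fintype.card_prod, Fintype.card_perm, Fintype.card_fin, Circuit.products,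
      Nat.card_eq_fintype_card]
    rfl
  rw [hcard] at hmain
  have hidx : C.locSym.index * C.numLocalSym = b.factorial ^ m := by
    rw [← C.card_locSym, Subgroup.index_mul_card, Nat.card_eq_fintype_card, Fintype.card_pi,
      Finset.prod_const, Finset.card_univ, Fintype.card_fin, Fintype.card_perm, Fintype.card_fin]
  have hpos : (0 : ℝ) < C.numLocalSym := by
    rw [← C.card_locSym]
    exact_mod_cast (Nat.card_pos : 0 < Nat.card C.locSym)
  have hidx' : (C.locSym.index : ℝ) * C.numLocalSym = (b.factorial : ℝ) ^ m := by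
    exact_mod_cast hidx
  have h3 : β ^ (m * b) ≤ β₁ ^ (m * b) := pow_le_pow_left₀ h0 h12 _
  have h4 := hn₀ (m * b) hmb
  have h5 : 6 * β ^ (m * b) < ((C.products * 6 : ℕ) : ℝ) * C.locSym.index := by linarith
  push_cast at h5
  have h6 : β ^ (m * b) < (C.products : ℝ) * C.locSym.index := by linarith
  calc β ^ (m * b) * C.numLocalSym < ((C.products : ℝ) * C.locSym.index) * C.numLocalSym :=
        mul_lt_mul_of_pos_right h6 hpos
    _ = C.products * ((b.factorial : ℝ) ^ m) := by rw [mul_assoc, hidx']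

end Pool.Agent.SAC
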